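import Pool.Agent.Q120.NB.Stm2

set_option autoImplicit false

/-!
# Project NB: interpolation for `p ≥ 2`
-/

namespace Pool.Agent.Q211.NB

open Complex MeasureTheory Filter Topology Set
open Pool.Agent.Q120.NB

theorem t_HO2 : J_HO2 := by
  intro p σ M hp hM u hu hI hb
  have hp0 : 0 < p := by linarith
  have hpt : ∀ y ∈ Ioi (0 : ℝ), ‖u y‖ ^ p * y ^ (-(p * σ) - 1) ≤
      M ^ (p - 2) * (‖u y‖ ^ 2 * y ^ (-(2 * σ) - 1)) := by
    intro y hy
    have hy0 : 0 < y := hy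
    rcases eq_or_lt_of_le (norm_nonneg (u y)) with h | h
    · rw [← h, Real.zero_rpow (by linarith)]
      simp
    · have h1 : ‖u y‖ ^ p = ‖u y‖ ^ (p - 2) * ‖u y‖ ^ 2 := by
        rw [← Real.rpow_natCast, ← Real.rpow_add h]
        norm_num
      have h2 : y ^ (-(p * σ) - 1) = (y ^ σ) ^ (-(p - 2)) * y ^ (-(2 * σ) - 1) := by
        rw [← Real.rpow_mul hy0.le, ← Real.rpow_add hy0]
        congr 1
        ring
      have h3 : ‖u y‖ ^ (p - 2) * (y ^ σ) ^ (-(p - 2)) ≤ M ^ (p - 2) := by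
        rw [Real.rpow_neg (by positivity), ← div_eq_mul_inv, div_le_iff₀ (by positivity),
          ← Real.mul_rpow hM (by positivity)]
        exact Real.rpow_le_rpow (norm_nonneg _) (hb y hy0) (by linarith)
      calc ‖u y‖ ^ p * y ^ (-(p * σ) - 1) =
            (‖u y‖ ^ (p - 2) * (y ^ σ) ^ (-(p - 2))) * (‖u y‖ ^ 2 * y ^ (-(2 * σ) - 1)) := by
              rw [h1, h2]
              ring
        _ ≤ M ^ (p - 2) * (‖u y‖ ^ 2 * y ^ (-(2 * σ) - 1)) :=
            mul_le_mul_of_nonneg_right h3 (by positivity)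
  have hmeas : AEStronglyMeasurable (fun y : ℝ => ‖u y‖ ^ p * y ^ (-(p * σ) - 1))
      (volume.restrict (Ioi 0)) :=
    ((hu.norm.pow_const p).mul (measurable_id.pow_const _)).aestronglyMeasurable
  have hint : IntegrableOn (fun y : ℝ => ‖u y‖ ^ p * y ^ (-(p * σ) - 1)) (Ioi 0) := by
    refine (hI.const_mul (M ^ (p - 2))).mono' hmeas ?_
    rw [ae_restrict_iff' measurableSet_Ioi]
    refine Eventually.of_forall fun y hy => ?_
    have hy0 : (0 : ℝ) < y := hy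
    rw [Real.norm_of_nonneg (by positivity)]
    exact hpt y hy
  refine ⟨hint, ?_⟩
  have h4 : ∫ y in Ioi (0 : ℝ), ‖u y‖ ^ p * y ^ (-(p * σ) - 1) ≤
      M ^ (p - 2) * ∫ y in Ioi (0 : ℝ), ‖u y‖ ^ 2 * y ^ (-(2 * σ) - 1) := by
    rw [← integral_const_mul]
    exact setIntegral_mono_on hint (hI.const_mul _) measurableSet_Ioi hpt
  have h5 : 0 ≤ ∫ y in Ioi (0 : ℝ), ‖u y‖ ^ p * y ^ (-(p * σ) - 1) :=
    setIntegral_nonneg measurableSet_Ioi fun y hy => by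
      have hy0 : (0 : ℝ) < y := hy
      positivity
  have h6 : 0 ≤ ∫ y in Ioi (0 : ℝ), ‖u y‖ ^ 2 * y ^ (-(2 * σ) - 1) :=
    setIntegral_nonneg measurableSet_Ioi fun y hy => by
      have hy0 : (0 : ℝ) < y := hy
      positivity
  unfold ny
  calc (∫ y in Ioi (0 : ℝ), ‖u y‖ ^ p * y ^ (-(p * σ) - 1)) ^ (1 / p) ≤
        (M ^ (p - 2) * ∫ y in Ioi (0 : ℝ), ‖u y‖ ^ 2 * y ^ (-(2 * σ) - 1)) ^ (1 / p) :=
        Real.rpow_le_rpow h5 h4 (by positivity)
    _ = M ^ (1 - 2 / p) * (∫ y in Ioi (0 : ℝ), ‖u y‖ ^ 2 * y ^ (-(2 * σ) - 1)) ^ (1 / p) := by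
        rw [Real.mul_rpow (by positivity) h6, ← Real.rpow_mul hM]
        congr 2
        field_simp

end Pool.Agent.Q211.NB
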