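import Pool.Agent.Q120.NB.Stm2

set_option autoImplicit false

/-!
# Project NB: the lower bound for `p = ∞`
-/

namespace Pool.Agent.Q211.NB

open Complex MeasureTheory Filter Topology Set
open Pool.Agent.Q120.NB

theorem frK_int {K : ℝ → ℂ} (hK : IntegrableOn K (Ioi 0)) (θ : ℝ) :
    IntegrableOn (fun y : ℝ => ((Int.fract (θ * y) : ℝ) : ℂ) * K y) (Ioi 0) := by
  refine Integrable.bdd_mul (c := 1) hK ?_ ?_
  · exact (Complex.measurable_ofReal.comp
      (measurable_fract.comp (measurable_id.const_mul _))).aestronglyMeasurable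
  · refine Eventually.of_forall fun y => ?_
    rw [Complex.norm_real, Real.norm_eq_abs, abs_of_nonneg (Int.fract_nonneg _)]
    exact (Int.fract_lt_one _).le

/-- pairing the error with the test function -/
theorem uK {K : ℝ → ℂ} (hK : IntegrableOn K (Ioi 0)) (a : ℝ →₀ ℂ)
    (ha : ∀ θ ∈ a.support, ∫ y in Ioi (0 : ℝ), ((Int.fract (θ * y) : ℝ) : ℂ) * K y = 0) :
    ∫ y in Ioi (0 : ℝ), eyR a y * K y = ∫ y in Ioi (1 : ℝ), K y := by
  have e1 : ∀ y : ℝ, eyR a y * K y = (Ici (1 : ℝ)).indicator K y -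
      ∑ θ ∈ a.support, a θ * (((Int.fract (θ * y) : ℝ) : ℂ) * K y) := by
    intro y
    unfold eyR
    rw [sub_mul, Finsupp.sum, Finset.sum_mul]
    congr 1
    · by_cases h : (1 : ℝ) ≤ y
      · rw [if_pos h, indicator_of_mem (show y ∈ Ici (1 : ℝ) from h), one_mul]
      · rw [if_neg h, indicator_of_notMem (show y ∉ Ici (1 : ℝ) from h), zero_mul]
    · exact Finset.sum_congr rfl fun θ _ => by ring
  have i1 : IntegrableOn (fun y => (Ici (1 : ℝ)).indicator K y) (Ioi 0) :=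
    hK.indicator measurableSet_Ici
  have i2 : ∀ θ ∈ a.support, IntegrableOn (fun y : ℝ => a θ * (((Int.fract (θ * y) : ℝ) : ℂ) * K y)) (Ioi 0) :=
    fun θ _ => (frK_int hK θ).const_mul _
  calc ∫ y in Ioi (0 : ℝ), eyR a y * K y = ∫ y in Ioi (0 : ℝ), ((Ici (1 : ℝ)).indicator K y -
      ∑ θ ∈ a.support, a θ * (((Int.fract (θ * y) : ℝ) : ℂ) * K y)) := by
        simp only [e1]
    _ = (∫ y in Ioi (0 : ℝ), (Ici (1 : ℝ)).indicator K y) -
        ∫ y in Ioi (0 : ℝ), ∑ θ ∈ a.support, a θ * (((Int.fract (θ * y) : ℝ) : ℂ) * K y) :=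
        integral_sub i1 (integrable_finsetSum _ i2)
    _ = ∫ y in Ioi (1 : ℝ), K y := by
        rw [integral_finsetSum _ i2]
        have e2 : ∑ θ ∈ a.support, ∫ y in Ioi (0 : ℝ), a θ * (((Int.fract (θ * y) : ℝ) : ℂ) * K y) = 0 := by
          refine Finset.sum_eq_zero fun θ hθ => ?_
          rw [integral_const_mul, ha θ hθ, mul_zero]
        rw [e2, sub_zero, integral_indicator measurableSet_Ici, Measure.restrict_restrict measurableSet_Ici]
        have e3 : Ici (1 : ℝ) ∩ Ioi 0 = Ici 1 := by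
          ext y
          simp only [mem_inter_iff, mem_Ici, mem_Ioi]
          constructor
          · exact fun h => h.1
          · exact fun h => ⟨h, by linarith⟩
        rw [e3, integral_Ici_eq_integral_Ioi]

/-- the weighted `L¹` norm of the test function -/
theorem three {σ β C lam : ℝ} (hσ0 : 0 < σ) (hσ1 : σ < 1) (hβ : 0 < β) (hC : 0 < C) (hl : 0 < lam)
    (hl1 : lam ≤ 1) {K : ℝ → ℂ} (hK : Measurable K) (b1 : ∀ y : ℝ, 0 < y → y ≤ 1 → ‖K y‖ ≤ C)
    (b2 : ∀ y : ℝ, 1 ≤ y → y ≤ 1 / lam → ‖K y‖ ≤ C * y ^ (-β - 1))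
    (b3 : ∀ y : ℝ, 1 / lam ≤ y → ‖K y‖ ≤ C * lam⁻¹ * y ^ (-β - 2)) :
    IntegrableOn (fun y : ℝ => y ^ σ * ‖K y‖) (Ioi 0) ∧
    ∫ y in Ioi (0 : ℝ), y ^ σ * ‖K y‖ ≤
      C * (1 + (∫ y in (1 : ℝ)..(1 / lam), y ^ (σ - β - 1)) + lam ^ (β - σ) / (1 + β - σ)) := by
  have hL : 1 ≤ 1 / lam := by
    rw [le_div_iff₀ hl]
    linarith
  have hL0 : 0 < 1 / lam := by linarith
  have hm : Measurable (fun y : ℝ => y ^ σ * ‖K y‖) := (measurable_id.pow_const _).mul hK.norm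
  have p1 : ∀ y ∈ Ioc (0 : ℝ) 1, y ^ σ * ‖K y‖ ≤ C := by
    intro y hy
    have h1 : y ^ σ ≤ 1 := Real.rpow_le_one hy.1.le hy.2 hσ0.le
    calc y ^ σ * ‖K y‖ ≤ 1 * C :=
          mul_le_mul h1 (b1 y hy.1 hy.2) (norm_nonneg _) zero_le_one
      _ = C := one_mul _
  have p2 : ∀ y ∈ Ioc (1 : ℝ) (1 / lam), y ^ σ * ‖K y‖ ≤ C * y ^ (σ - β - 1) := by
    intro y hy
    have hy0 : 0 < y := lt_trans one_pos hy.1
    calc y ^ σ * ‖K y‖ ≤ y ^ σ * (C * y ^ (-β - 1)) :=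
          mul_le_mul_of_nonneg_left (b2 y hy.1.le hy.2) (by positivity)
      _ = C * y ^ (σ - β - 1) := by
          rw [show σ - β - 1 = σ + (-β - 1) by ring, Real.rpow_add hy0]
          ring
  have p3 : ∀ y ∈ Ioi (1 / lam), y ^ σ * ‖K y‖ ≤ C * lam⁻¹ * y ^ (σ - β - 2) := by
    intro y hy
    have hy1 : 1 / lam < y := hy
    have hy0 : 0 < y := lt_trans hL0 hy1
    calc y ^ σ * ‖K y‖ ≤ y ^ σ * (C * lam⁻¹ * y ^ (-β - 2)) :=
          mul_le_mul_of_nonneg_left (b3 y hy1.le) (by positivity)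
      _ = C * lam⁻¹ * y ^ (σ - β - 2) := by
          rw [show σ - β - 2 = σ + (-β - 2) by ring, Real.rpow_add hy0]
          ring
  have nn : ∀ y : ℝ, 0 < y → ‖y ^ σ * ‖K y‖‖ = y ^ σ * ‖K y‖ := fun y hy =>
    Real.norm_of_nonneg (by positivity)
  have j1 : IntegrableOn (fun _ : ℝ => C) (Ioc (0 : ℝ) 1) := integrableOn_const (by simp)
  have i1 : IntegrableOn (fun y : ℝ => y ^ σ * ‖K y‖) (Ioc (0 : ℝ) 1) := by
    refine j1.mono' hm.aestronglyMeasurable ?_
    rw [ae_restrict_iff' measurableSet_Ioc]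
    exact Eventually.of_forall fun y hy => by rw [nn y hy.1]; exact p1 y hy
  have j2 : IntegrableOn (fun y : ℝ => C * y ^ (σ - β - 1)) (Ioc (1 : ℝ) (1 / lam)) := by
    have h0 : IntervalIntegrable (fun y : ℝ => y ^ (σ - β - 1)) volume 1 (1 / lam) := by
      refine intervalIntegral.intervalIntegrable_rpow (Or.inr ?_)
      rw [uIcc_of_le hL]
      intro h
      linarith [h.1]
    exact ((intervalIntegrable_iff_integrableOn_Ioc_of_le hL).1 h0).const_mul C
  have i2 : IntegrableOn (fun y : ℝ => y ^ σ * ‖K y‖) (Ioc (1 : ℝ) (1 / lam)) := by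
    refine j2.mono' hm.aestronglyMeasurable ?_
    rw [ae_restrict_iff' measurableSet_Ioc]
    exact Eventually.of_forall fun y hy => by
      rw [nn y (lt_trans one_pos hy.1)]
      exact p2 y hy
  have j3 : IntegrableOn (fun y : ℝ => C * lam⁻¹ * y ^ (σ - β - 2)) (Ioi (1 / lam)) :=
    (integrableOn_Ioi_rpow_of_lt (by linarith) hL0).const_mul _
  have i3 : IntegrableOn (fun y : ℝ => y ^ σ * ‖K y‖) (Ioi (1 / lam)) := by
    refine j3.mono' hm.aestronglyMeasurable ?_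
    rw [ae_restrict_iff' measurableSet_Ioi]
    exact Eventually.of_forall fun y hy => by
      rw [nn y (lt_trans hL0 hy)]
      exact p3 y hy
  have i12 : IntegrableOn (fun y : ℝ => y ^ σ * ‖K y‖) (Ioi 1) := by
    rw [← Ioc_union_Ioi_eq_Ioi hL]
    exact i2.union i3
  have i0 : IntegrableOn (fun y : ℝ => y ^ σ * ‖K y‖) (Ioi 0) := by
    rw [← Ioc_union_Ioi_eq_Ioi (zero_le_one : (0 : ℝ) ≤ 1)]
    exact i1.union i12
  refine ⟨i0, ?_⟩
  have s1 : ∫ y in Ioi (0 : ℝ), y ^ σ * ‖K y‖ = (∫ y in Ioc (0 : ℝ) 1, y ^ σ * ‖K y‖) +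
      ((∫ y in Ioc (1 : ℝ) (1 / lam), y ^ σ * ‖K y‖) + ∫ y in Ioi (1 / lam), y ^ σ * ‖K y‖) := by
    rw [← setIntegral_union (Ioc_disjoint_Ioi le_rfl) measurableSet_Ioi i2 i3, Ioc_union_Ioi_eq_Ioi hL,
      ← setIntegral_union (Ioc_disjoint_Ioi le_rfl) measurableSet_Ioi i1 i12,
      Ioc_union_Ioi_eq_Ioi zero_le_one]
  have k1 : ∫ y in Ioc (0 : ℝ) 1, y ^ σ * ‖K y‖ ≤ C := by
    calc ∫ y in Ioc (0 : ℝ) 1, y ^ σ * ‖K y‖ ≤ ∫ _ in Ioc (0 : ℝ) 1, C :=
          setIntegral_mono_on i1 j1 measurableSet_Ioc p1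
      _ = C := by simp
  have k2 : ∫ y in Ioc (1 : ℝ) (1 / lam), y ^ σ * ‖K y‖ ≤ C * ∫ y in (1 : ℝ)..(1 / lam), y ^ (σ - β - 1) := by
    rw [intervalIntegral.integral_of_le hL, ← integral_const_mul]
    exact setIntegral_mono_on i2 j2 measurableSet_Ioc p2
  have k3 : ∫ y in Ioi (1 / lam), y ^ σ * ‖K y‖ ≤ C * (lam ^ (β - σ) / (1 + β - σ)) := by
    calc ∫ y in Ioi (1 / lam), y ^ σ * ‖K y‖ ≤ ∫ y in Ioi (1 / lam), C * lam⁻¹ * y ^ (σ - β - 2) :=
          setIntegral_mono_on i3 j3 measurableSet_Ioi p3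
      _ = C * (lam ^ (β - σ) / (1 + β - σ)) := by
          rw [integral_const_mul, integral_Ioi_rpow_of_lt (by linarith) hL0]
          have e1 : lam⁻¹ * (1 / lam) ^ (σ - β - 2 + 1) = lam ^ (β - σ) := by
            rw [one_div, Real.inv_rpow hl.le, ← Real.rpow_neg hl.le, ← Real.rpow_neg_one lam,
              ← Real.rpow_add hl]
            congr 1
            ring
          have e2 : (1 + β - σ) ≠ 0 := by linarith
          have e3 : (σ - β - 2 + 1) = -(1 + β - σ) := by ring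
          rw [← e1, e3]
          field_simp
  rw [s1]
  calc _ ≤ C + (C * (∫ y in (1 : ℝ)..(1 / lam), y ^ (σ - β - 1)) + C * (lam ^ (β - σ) / (1 + β - σ))) :=
        add_le_add k1 (add_le_add k2 k3)
    _ = _ := by ring

theorem t_LBI (hTR : J_TR) : J_LBI := by
  intro σ hσ0 hσ1 ρ hρ hρ0 hρ1
  obtain ⟨C, hC, H⟩ := hTR ρ hρ hρ0 hρ1
  have hρne : ρ ≠ 0 := by
    intro h
    rw [h] at hρ0
    simp at hρ0
  have hρn : 0 < ‖ρ‖ := norm_pos_iff.2 hρne
  set β : ℝ := ρ.re with hβ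
  obtain ⟨l0, hl0, hl0h, hl0C⟩ : ∃ l0 : ℝ, 0 < l0 ∧ l0 ≤ 1 / 2 ∧ C * l0 ≤ 1 / (2 * ‖ρ‖) := by
    refine ⟨min (1 / 2) (1 / (2 * ‖ρ‖) / C), by positivity, min_le_left _ _, ?_⟩
    have := min_le_right (1 / 2) (1 / (2 * ‖ρ‖) / C)
    rw [le_div_iff₀ hC] at this
    linarith
  -- the main inequality
  have key : ∀ lam : ℝ, 0 < lam → lam ≤ 1 / 2 → ∀ a : ℝ →₀ ℂ, (∀ θ ∈ a.support, lam ≤ θ ∧ θ ≤ 1) →
      ∀ M : ℝ, (∀ y : ℝ, 0 < y → ‖eyR a y‖ ≤ M * y ^ σ) → 0 ≤ M ∧ ∃ l : ℝ, 0 < l ∧ l ≤ 1 ∧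
        2 * l0 * lam ≤ l ∧ 1 / (2 * ‖ρ‖) ≤ M * (C * (1 + (∫ y in (1 : ℝ)..(1 / l), y ^ (σ - β - 1)) +
          l ^ (β - σ) / (1 + β - σ))) := by
    intro lam hlam hlam2 a ha M hM
    have hM0 : 0 ≤ M := by
      have := (norm_nonneg _).trans (hM 1 one_pos)
      rwa [Real.one_rpow, mul_one] at this
    refine ⟨hM0, min lam l0, by positivity, (min_le_left _ _).trans (by linarith), ?_, ?_⟩
    · refine le_min ?_ ?_
      · nlinarith
      · nlinarith
    · obtain ⟨K, hKm, hKi, hKo, hKr, b1, b2, b3⟩ := H (min lam l0) (by positivity)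
        ((min_le_left _ _).trans (by linarith))
      have hK1 : ∫ y in Ioi (0 : ℝ), eyR a y * K y = ∫ y in Ioi (1 : ℝ), K y :=
        uK hKi a fun θ hθ => hKo θ ((min_le_left _ _).trans (ha θ hθ).1) (ha θ hθ).2
      obtain ⟨i0, hI⟩ := three hσ0 hσ1 hρ0 hC (by positivity : 0 < min lam l0)
        ((min_le_left _ _).trans (by linarith)) hKm b1 b2 b3
      have h1 : ‖∫ y in Ioi (0 : ℝ), eyR a y * K y‖ ≤ M * ∫ y in Ioi (0 : ℝ), y ^ σ * ‖K y‖ := by
        rw [← integral_const_mul]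
        refine norm_integral_le_of_norm_le (i0.const_mul M) ?_
        rw [ae_restrict_iff' measurableSet_Ioi]
        refine Eventually.of_forall fun y hy => ?_
        rw [norm_mul, ← mul_assoc]
        exact mul_le_mul_of_nonneg_right (hM y hy) (norm_nonneg _)
      have h2 : 1 / (2 * ‖ρ‖) ≤ ‖∫ y in Ioi (1 : ℝ), K y‖ := by
        have h3 : ‖(1 : ℂ) / ρ‖ = 1 / ‖ρ‖ := by rw [norm_div, norm_one]
        have h4 : ‖(1 : ℂ) / ρ‖ ≤ ‖∫ y in Ioi (1 : ℝ), K y‖ + ‖(∫ y in Ioi (1 : ℝ), K y) - 1 / ρ‖ := by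
          have := norm_sub_le (∫ y in Ioi (1 : ℝ), K y) ((∫ y in Ioi (1 : ℝ), K y) - 1 / ρ)
          rwa [sub_sub_cancel] at this
        have h5 : C * min lam l0 ≤ C * l0 := mul_le_mul_of_nonneg_left (min_le_right _ _) hC.le
        have h6 : 1 / ‖ρ‖ = 1 / (2 * ‖ρ‖) + 1 / (2 * ‖ρ‖) := by
          field_simp
          norm_num
        linarith
      rw [hK1] at h1
      exact h2.trans (h1.trans (mul_le_mul_of_nonneg_left hI hM0))
  rcases lt_trichotomy β σ with h | h | h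
  · -- β < σ
    set C3 : ℝ := C * (1 + 1 / (σ - β) + 1 / (1 + β - σ)) * (2 * l0) ^ (β - σ) with hC3
    have hd : 0 < σ - β := by linarith
    have hd2 : 0 < 1 + β - σ := by linarith
    have hC3p : 0 < C3 := by positivity
    refine ⟨1 / (2 * ‖ρ‖ * C3), by positivity, fun lam hlam hlam2 a ha M hM => ⟨fun _ => ?_,
      fun h' => absurd h' h.ne, fun h' => absurd h' h.not_gt⟩⟩
    obtain ⟨hM0, l, hl, hl1, hll, hk⟩ := key lam hlam hlam2 a ha M hM
    have hL : 1 ≤ 1 / l := by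
      rw [le_div_iff₀ hl]
      linarith
    have hlp : l ^ (β - σ) ≤ (2 * l0) ^ (β - σ) * lam ^ (β - σ) := by
      rw [← Real.mul_rpow (by positivity) hlam.le]
      exact Real.rpow_le_rpow_of_nonpos (by positivity) hll (by linarith)
    have hl1p : 1 ≤ l ^ (β - σ) := Real.one_le_rpow_of_pos_of_le_one_of_nonpos hl hl1 (by linarith)
    have hI : ∫ y in (1 : ℝ)..(1 / l), y ^ (σ - β - 1) ≤ 1 / (σ - β) * l ^ (β - σ) := by
      rw [integral_rpow (Or.inl (by linarith))]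
      have e1 : (1 / l) ^ (σ - β - 1 + 1) = l ^ (β - σ) := by
        rw [one_div, Real.inv_rpow hl.le, ← Real.rpow_neg hl.le]
        congr 1
        ring
      rw [e1, Real.one_rpow, show σ - β - 1 + 1 = σ - β by ring, div_mul_eq_mul_div, one_mul]
      exact div_le_div_of_nonneg_right (by linarith) hd.le
    have hE : C * (1 + (∫ y in (1 : ℝ)..(1 / l), y ^ (σ - β - 1)) + l ^ (β - σ) / (1 + β - σ)) ≤
        C3 * lam ^ (β - σ) := by
      calc C * (1 + (∫ y in (1 : ℝ)..(1 / l), y ^ (σ - β - 1)) + l ^ (β - σ) / (1 + β - σ)) ≤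
            C * (l ^ (β - σ) + 1 / (σ - β) * l ^ (β - σ) + l ^ (β - σ) / (1 + β - σ)) := by
              refine mul_le_mul_of_nonneg_left ?_ hC.le
              linarith
        _ = C * (1 + 1 / (σ - β) + 1 / (1 + β - σ)) * l ^ (β - σ) := by ring
        _ ≤ C * (1 + 1 / (σ - β) + 1 / (1 + β - σ)) * ((2 * l0) ^ (β - σ) * lam ^ (β - σ)) :=
            mul_le_mul_of_nonneg_left hlp (by positivity)
        _ = C3 * lam ^ (β - σ) := by rw [hC3]; ring
    have h7 : 1 / (2 * ‖ρ‖) ≤ M * (C3 * lam ^ (β - σ)) := hk.trans (mul_le_mul_of_nonneg_left hE hM0)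
    have h8 : lam ^ (β - σ) * lam ^ (σ - β) = 1 := by
      rw [← Real.rpow_add hlam, show β - σ + (σ - β) = 0 by ring, Real.rpow_zero]
    have hlp' : 0 < lam ^ (σ - β) := by positivity
    have h9 : 1 / (2 * ‖ρ‖) * lam ^ (σ - β) ≤ M * C3 := by
      calc 1 / (2 * ‖ρ‖) * lam ^ (σ - β) ≤ M * (C3 * lam ^ (β - σ)) * lam ^ (σ - β) :=
            mul_le_mul_of_nonneg_right h7 hlp'.le
        _ = M * C3 * (lam ^ (β - σ) * lam ^ (σ - β)) := by ring
        _ = M * C3 := by rw [h8, mul_one]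
    calc 1 / (2 * ‖ρ‖ * C3) * lam ^ (σ - β) = (1 / (2 * ‖ρ‖) * lam ^ (σ - β)) / C3 := by
          field_simp
      _ ≤ M := by
          rw [div_le_iff₀ hC3p]
          exact h9
  · -- β = σ
    set C3 : ℝ := C * (2 * (2 + Real.log (1 / (2 * l0))) + 1) with hC3
    have hlogl0 : 0 ≤ Real.log (1 / (2 * l0)) := by
      refine Real.log_nonneg ?_
      rw [le_div_iff₀ (by positivity)]
      linarith
    have hC3p : 0 < C3 := by positivity
    refine ⟨1 / (2 * ‖ρ‖ * C3), by positivity, fun lam hlam hlam2 a ha M hM => ⟨fun h' => absurd h h'.ne,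
      fun _ => ?_, fun h' => absurd h h'.ne'⟩⟩
    obtain ⟨hM0, l, hl, hl1, hll, hk⟩ := key lam hlam hlam2 a ha M hM
    have hL : 1 ≤ 1 / l := by
      rw [le_div_iff₀ hl]
      linarith
    have hlog2 : 1 / 2 ≤ Real.log (1 / lam) := by
      have h1 : (1 : ℝ) / 2 ≤ Real.log 2 := by
        have := Real.log_two_gt_d9
        linarith
      refine h1.trans (Real.log_le_log two_pos ?_)
      rw [le_div_iff₀ hlam]
      linarith
    have hI : ∫ y in (1 : ℝ)..(1 / l), y ^ (σ - β - 1) ≤ Real.log (1 / (2 * l0)) + Real.log (1 / lam) := by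
      have e1 : ∫ y in (1 : ℝ)..(1 / l), y ^ (σ - β - 1) = ∫ y in (1 : ℝ)..(1 / l), y⁻¹ := by
        refine intervalIntegral.integral_congr fun y _ => ?_
        rw [h, sub_self, zero_sub, Real.rpow_neg_one]
      rw [e1, integral_inv_of_pos one_pos (by linarith), div_one]
      rw [← Real.log_mul (by positivity) (by positivity)]
      refine Real.log_le_log (by positivity) ?_
      rw [div_mul_div_comm, one_mul]
      exact one_div_le_one_div_of_le (by positivity) hll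
    have hE : C * (1 + (∫ y in (1 : ℝ)..(1 / l), y ^ (σ - β - 1)) + l ^ (β - σ) / (1 + β - σ)) ≤
        C3 * Real.log (1 / lam) := by
      have e2 : l ^ (β - σ) / (1 + β - σ) = 1 := by
        rw [h]
        simp
      rw [e2, hC3, mul_assoc]
      refine mul_le_mul_of_nonneg_left ?_ hC.le
      nlinarith
    have h7 : 1 / (2 * ‖ρ‖) ≤ M * (C3 * Real.log (1 / lam)) := hk.trans (mul_le_mul_of_nonneg_left hE hM0)
    have hlp : 0 < Real.log (1 / lam) := by linarith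
    calc 1 / (2 * ‖ρ‖ * C3) * (Real.log (1 / lam))⁻¹ = (1 / (2 * ‖ρ‖)) / (C3 * Real.log (1 / lam)) := by
          field_simp
      _ ≤ M := by
          rw [div_le_iff₀ (by positivity)]
          exact h7
  · -- σ < β
    set C3 : ℝ := C * (1 + 1 / (β - σ) + 1 / (1 + β - σ)) with hC3
    have hd : 0 < β - σ := by linarith
    have hd2 : 0 < 1 + β - σ := by linarith
    have hC3p : 0 < C3 := by positivity
    refine ⟨1 / (2 * ‖ρ‖ * C3), by positivity, fun lam hlam hlam2 a ha M hM => ⟨fun h' => absurd h' h.not_gt,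
      fun h' => absurd h' h.ne', fun _ => ?_⟩⟩
    obtain ⟨hM0, l, hl, hl1, hll, hk⟩ := key lam hlam hlam2 a ha M hM
    have hL : 1 ≤ 1 / l := by
      rw [le_div_iff₀ hl]
      linarith
    have hl1p : l ^ (β - σ) ≤ 1 := Real.rpow_le_one hl.le hl1 hd.le
    have hl0p : 0 < l ^ (β - σ) := by positivity
    have hI : ∫ y in (1 : ℝ)..(1 / l), y ^ (σ - β - 1) ≤ 1 / (β - σ) := by
      rw [integral_rpow (Or.inr ⟨by linarith, by
        rw [uIcc_of_le hL]
        intro h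
        linarith [h.1]⟩)]
      have e1 : (1 / l) ^ (σ - β - 1 + 1) = l ^ (β - σ) := by
        rw [one_div, Real.inv_rpow hl.le, ← Real.rpow_neg hl.le]
        congr 1
        ring
      rw [e1, Real.one_rpow, show σ - β - 1 + 1 = -(β - σ) by ring, div_neg, ← neg_div]
      exact div_le_div_of_nonneg_right (by linarith) hd.le
    have hE : C * (1 + (∫ y in (1 : ℝ)..(1 / l), y ^ (σ - β - 1)) + l ^ (β - σ) / (1 + β - σ)) ≤ C3 := by
      rw [hC3]
      refine mul_le_mul_of_nonneg_left ?_ hC.le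
      have := div_le_div_of_nonneg_right hl1p hd2.le
      linarith
    have h7 : 1 / (2 * ‖ρ‖) ≤ M * C3 := hk.trans (mul_le_mul_of_nonneg_left hE hM0)
    calc 1 / (2 * ‖ρ‖ * C3) = (1 / (2 * ‖ρ‖)) / C3 := by
          field_simp
      _ ≤ M := by
          rw [div_le_iff₀ hC3p]
          exact h7

end Pool.Agent.Q211.NB
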