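import Pool.Agent.Helper240.ZU.A4

set_option autoImplicit false

/-!
# Project NB: weighted integrability of zeta on a vertical line to the right of the critical line
-/

namespace Pool.Agent.Q211.NB

open Complex MeasureTheory Filter Topology Set

theorem zcont {σ : ℝ} (h : σ < 1) : Continuous (fun t : ℝ => riemannZeta ((σ : ℂ) + t * I)) := by
  rw [continuous_iff_continuousAt]
  intro t
  have hne : (σ : ℂ) + t * I ≠ 1 := by
    intro h'
    have := congrArg Complex.re h'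
    simp at this
    linarith
  exact ContinuousAt.comp (f := fun t : ℝ => (σ : ℂ) + t * I) (differentiableAt_riemannZeta hne).continuousAt
    (by fun_prop)

theorem zsymm (σ t : ℝ) : ‖riemannZeta ((σ : ℂ) + ((-t : ℝ) : ℂ) * I)‖ = ‖riemannZeta ((σ : ℂ) + t * I)‖ := by
  have h := riemannZeta_conj ((σ : ℂ) + t * I)
  have e : (starRingEnd ℂ) ((σ : ℂ) + t * I) = (σ : ℂ) + ((-t : ℝ) : ℂ) * I := by
    simp [Complex.conj_ofReal]
  rw [e] at h
  rw [h, RCLike.norm_conj]

theorem DN_norm (N : ℕ) {s : ℂ} (hs : 0 ≤ s.re) : ‖ZU.DN N s‖ ≤ N := by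
  unfold ZU.DN
  calc ‖∑ n ∈ Finset.Icc 1 N, (n : ℂ) ^ (-s)‖ ≤ ∑ n ∈ Finset.Icc 1 N, ‖(n : ℂ) ^ (-s)‖ := norm_sum_le _ _
    _ ≤ ∑ _n ∈ Finset.Icc 1 N, (1 : ℝ) := by
        refine Finset.sum_le_sum fun n hn => ?_
        have hn1 : 1 ≤ n := (Finset.mem_Icc.1 hn).1
        rw [Complex.norm_natCast_cpow_of_pos (by omega)]
        refine Real.rpow_le_one_of_one_le_of_nonpos (by exact_mod_cast hn1) ?_
        rw [Complex.neg_re]
        linarith
    _ = N := by simp

theorem DN_cont (N : ℕ) (σ : ℝ) : Continuous (fun t : ℝ => ZU.DN N ((σ : ℂ) + t * I)) := by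
  unfold ZU.DN
  refine continuous_finsetSum _ fun n hn => ?_
  have hn1 : 1 ≤ n := (Finset.mem_Icc.1 hn).1
  refine Continuous.const_cpow (by fun_prop) (Or.inl ?_)
  exact_mod_cast (by omega : n ≠ 0)

theorem msq {σ : ℝ} (h1 : 1 / 2 < σ) (h2 : σ < 1) : ∃ C : ℝ, 0 < C ∧ ∀ T : ℝ, 1 ≤ T →
    ∫ t in (0 : ℝ)..T, ‖riemannZeta ((σ : ℂ) + t * I)‖ ^ 2 ≤ C * T := by
  obtain ⟨N, h⟩ := ZU.J_a4.zeta_meansq σ σ h1 le_rfl h2 1 one_pos 1 one_pos
  obtain ⟨T0, hT0, hT⟩ := h N le_rfl
  refine ⟨(2 + 6 * (N : ℝ) ^ 2) * (1 + T0), by positivity, fun T hT1 => ?_⟩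
  set T' : ℝ := max T T0 with hT'
  have hTT' : T ≤ T' := le_max_left _ _
  have hT'1 : 1 ≤ T' := hT1.trans hTT'
  have hc := zcont h2
  have hd := DN_cont N σ
  have k1 := hT T' (le_max_right _ _) σ ⟨le_rfl, le_rfl⟩
  have hp : ∀ t : ℝ, ‖riemannZeta ((σ : ℂ) + t * I)‖ ^ 2 ≤
      2 * ‖riemannZeta ((σ : ℂ) + t * I) - ZU.DN N ((σ : ℂ) + t * I)‖ ^ 2 + 2 * (N : ℝ) ^ 2 := by
    intro t
    have k2 : ‖ZU.DN N ((σ : ℂ) + t * I)‖ ≤ N := DN_norm N (by simp; linarith)
    have k3 : ‖riemannZeta ((σ : ℂ) + t * I)‖ ≤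
        ‖riemannZeta ((σ : ℂ) + t * I) - ZU.DN N ((σ : ℂ) + t * I)‖ + N := by
      have := norm_add_le (riemannZeta ((σ : ℂ) + t * I) - ZU.DN N ((σ : ℂ) + t * I))
        (ZU.DN N ((σ : ℂ) + t * I))
      rw [sub_add_cancel] at this
      linarith
    have k4 := pow_le_pow_left₀ (norm_nonneg _) k3 2
    nlinarith [sq_nonneg (‖riemannZeta ((σ : ℂ) + t * I) - ZU.DN N ((σ : ℂ) + t * I)‖ - N)]
  calc ∫ t in (0 : ℝ)..T, ‖riemannZeta ((σ : ℂ) + t * I)‖ ^ 2 ≤
        ∫ t in (-1 : ℝ)..(T' + 1), ‖riemannZeta ((σ : ℂ) + t * I)‖ ^ 2 := by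
        refine intervalIntegral.integral_mono_interval (by norm_num) (by linarith) (by linarith)
          (Eventually.of_forall fun t => by positivity) ?_
        exact (hc.norm.pow 2).intervalIntegrable _ _
    _ ≤ ∫ t in (-1 : ℝ)..(T' + 1), (2 * ‖riemannZeta ((σ : ℂ) + t * I) - ZU.DN N ((σ : ℂ) + t * I)‖ ^ 2 +
          2 * (N : ℝ) ^ 2) := by
        refine intervalIntegral.integral_mono_on (by linarith) ((hc.norm.pow 2).intervalIntegrable _ _) ?_
          fun t _ => hp t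
        exact (((hc.sub hd).norm.pow 2).const_mul 2 |>.add continuous_const).intervalIntegrable _ _
    _ = 2 * (∫ t in (-1 : ℝ)..(T' + 1), ‖riemannZeta ((σ : ℂ) + t * I) - ZU.DN N ((σ : ℂ) + t * I)‖ ^ 2) +
          (T' + 2) * (2 * (N : ℝ) ^ 2) := by
        rw [intervalIntegral.integral_add, intervalIntegral.integral_const_mul,
          intervalIntegral.integral_const, smul_eq_mul]
        · ring
        · exact (((hc.sub hd).norm.pow 2).const_mul 2).intervalIntegrable _ _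
        · exact continuous_const.intervalIntegrable _ _
    _ ≤ 2 * (1 * T') + (3 * T') * (2 * (N : ℝ) ^ 2) := by
        refine add_le_add (by linarith) (mul_le_mul_of_nonneg_right (by linarith) (by positivity))
    _ = (2 + 6 * (N : ℝ) ^ 2) * T' := by ring
    _ ≤ (2 + 6 * (N : ℝ) ^ 2) * ((1 + T0) * T) := by
        refine mul_le_mul_of_nonneg_left (max_le ?_ ?_) (by positivity)
        · nlinarith
        · nlinarith
    _ = (2 + 6 * (N : ℝ) ^ 2) * (1 + T0) * T := by ring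

/-- weighted mean square -/
theorem zw2 {σ : ℝ} (h1 : 1 / 2 < σ) (h2 : σ < 1) {e : ℝ} (he : 0 < e) :
    Integrable (fun t : ℝ => ‖riemannZeta ((σ : ℂ) + t * I)‖ ^ 2 * (1 + |t|) ^ (-1 - e)) := by
  obtain ⟨C, hC, hT⟩ := msq h1 h2
  set f : ℝ → ℝ := fun t => ‖riemannZeta ((σ : ℂ) + t * I)‖ ^ 2 * (1 + |t|) ^ (-1 - e) with hf
  have hfc : Continuous f := by
    refine ((zcont h2).norm.pow 2).mul (Continuous.rpow_const (by fun_prop) fun t => Or.inl ?_)
    positivity
  have hf0 : ∀ t, 0 ≤ f t := fun t => by positivity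
  set q : ℝ := (2 : ℝ) ^ (-e) with hq
  have hq0 : 0 < q := by positivity
  have hq1 : q < 1 := Real.rpow_lt_one_of_one_lt_of_neg (by norm_num) (by linarith)
  have hstep : ∀ n : ℕ, ∫ t in (2 : ℝ) ^ n..(2 : ℝ) ^ (n + 1), f t ≤ 2 * C * q ^ n := by
    intro n
    have hn1 : (1 : ℝ) ≤ 2 ^ n := one_le_pow₀ (by norm_num)
    have hn2 : (2 : ℝ) ^ n ≤ 2 ^ (n + 1) := by rw [pow_succ]; linarith
    calc ∫ t in (2 : ℝ) ^ n..(2 : ℝ) ^ (n + 1), f t ≤
          ∫ t in (2 : ℝ) ^ n..(2 : ℝ) ^ (n + 1), ‖riemannZeta ((σ : ℂ) + t * I)‖ ^ 2 * ((2 : ℝ) ^ n) ^ (-1 - e) := by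
          refine intervalIntegral.integral_mono_on hn2 (hfc.intervalIntegrable _ _)
            ((((zcont h2).norm.pow 2).mul_const _).intervalIntegrable _ _) fun t ht => ?_
          refine mul_le_mul_of_nonneg_left ?_ (by positivity)
          have ht0 : 0 ≤ t := by linarith [ht.1]
          rw [abs_of_nonneg ht0]
          exact Real.rpow_le_rpow_of_nonpos (by positivity) (by linarith [ht.1]) (by linarith)
      _ = (∫ t in (2 : ℝ) ^ n..(2 : ℝ) ^ (n + 1), ‖riemannZeta ((σ : ℂ) + t * I)‖ ^ 2) * ((2 : ℝ) ^ n) ^ (-1 - e) :=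
          intervalIntegral.integral_mul_const _ _
      _ ≤ (C * 2 ^ (n + 1)) * ((2 : ℝ) ^ n) ^ (-1 - e) := by
          refine mul_le_mul_of_nonneg_right ?_ (by positivity)
          refine le_trans ?_ (hT (2 ^ (n + 1)) (hn1.trans hn2))
          exact intervalIntegral.integral_mono_interval (by positivity) hn2 le_rfl
            (Eventually.of_forall fun t => by positivity) (((zcont h2).norm.pow 2).intervalIntegrable _ _)
      _ = 2 * C * q ^ n := by
          have e1 : ((2 : ℝ) ^ n) ^ (-1 - e) = ((2 : ℝ) ^ n)⁻¹ * q ^ n := by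
            rw [show -1 - e = -1 + -e by ring, Real.rpow_add (by positivity), Real.rpow_neg_one, hq,
              ← Real.rpow_natCast, ← Real.rpow_natCast, ← Real.rpow_mul (by norm_num),
              ← Real.rpow_mul (by norm_num), mul_comm (n : ℝ) (-e)]
          rw [e1, pow_succ]
          field_simp
  have hsum : ∀ n : ℕ, ∫ t in (0 : ℝ)..(2 : ℝ) ^ n, f t ≤
      (∫ t in (0 : ℝ)..1, f t) + 2 * C / (1 - q) * (1 - q ^ n) := by
    intro n
    induction n with
    | zero => simp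
    | succ n ih =>
      rw [← intervalIntegral.integral_add_adjacent_intervals (hfc.intervalIntegrable 0 (2 ^ n))
        (hfc.intervalIntegrable _ _)]
      have h3 := hstep n
      have e2 : 2 * C / (1 - q) * (1 - q ^ (n + 1)) = 2 * C / (1 - q) * (1 - q ^ n) + 2 * C * q ^ n := by
        have : 1 - q ≠ 0 := by linarith
        field_simp
        ring
      rw [e2]
      linarith
  have hI : IntegrableOn f (Ioi 0) := by
    refine integrableOn_Ioi_of_intervalIntegral_norm_bounded (l := atTop) (b := fun n : ℕ => (2 : ℝ) ^ n)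
      ((∫ t in (0 : ℝ)..1, f t) + 2 * C / (1 - q)) 0 (fun i => ?_)
      (tendsto_pow_atTop_atTop_of_one_lt (by norm_num)) (Eventually.of_forall fun n => ?_)
    · exact (hfc.integrableOn_Icc).mono_set Ioc_subset_Icc_self
    · have e3 : ∀ t, ‖f t‖ = f t := fun t => Real.norm_of_nonneg (hf0 t)
      simp only [e3]
      refine (hsum n).trans ?_
      have h4 : 0 < 1 - q := by linarith
      have h5 : 2 * C / (1 - q) * (1 - q ^ n) ≤ 2 * C / (1 - q) := by
        refine mul_le_of_le_one_right (by positivity) ?_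
        have : 0 < q ^ n := by positivity
        linarith
      linarith
  refine LocallyIntegrable.integrable_of_isBigO_atTop_of_norm_isNegInvariant (g := f)
    hfc.locallyIntegrable (Eventually.of_forall fun t => ?_) (Asymptotics.isBigO_refl _ _)
    ⟨Ioi 0, Ioi_mem_atTop 0, hI⟩
  simp only [Function.comp, hf]
  rw [zsymm, abs_neg]

/-- weighted mean -/
theorem zw1 {σ : ℝ} (h1 : 1 / 2 < σ) (h2 : σ < 1) {e : ℝ} (he : 0 < e) :
    Integrable (fun t : ℝ => ‖riemannZeta ((σ : ℂ) + t * I)‖ * (1 + |t|) ^ (-1 - e)) := by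
  have k1 := zw2 h1 h2 he
  have k2 : Integrable (fun t : ℝ => (1 + |t|) ^ (-1 - e)) := by
    have := integrable_one_add_norm (E := ℝ) (μ := volume) (r := 1 + e) (by simp; exact he)
    have e1 : -(1 + e) = -1 - e := by ring
    rw [e1] at this
    simpa using this
  refine (k1.add k2).mono' ?_ (Eventually.of_forall fun t => ?_)
  · exact (((zcont h2).norm).mul (Continuous.rpow_const (by fun_prop) fun t => Or.inl (by positivity))).aestronglyMeasurable
  · rw [Real.norm_of_nonneg (by positivity)]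
    simp only [Pi.add_apply]
    rw [← add_one_mul]
    refine mul_le_mul_of_nonneg_right ?_ (by positivity)
    nlinarith [sq_nonneg (‖riemannZeta ((σ : ℂ) + t * I)‖ - 1), norm_nonneg (riemannZeta ((σ : ℂ) + t * I))]

end Pool.Agent.Q211.NB
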