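import Pool.Agent.Q237.BD.Mel
import Pool.Agent.Q120.NB.Stm2

set_option autoImplicit false

/-!
# Project NB: Mellin inversion for the primitive of the error
-/

namespace Pool.Agent.Q211.NB

open Complex MeasureTheory Filter Topology Set
open Pool.Agent.Q120.NB

/-- the Mellin transform of the primitive -/
theorem fub {u : ℝ → ℂ} (hu : Measurable u) {s : ℂ} (hs : 0 < s.re)
    (hI : IntegrableOn (fun y : ℝ => ‖u y‖ * y ^ (-s.re - 1)) (Ioi 0)) :
    IntegrableOn (fun x : ℝ => (∫ y in Ioc 0 x, u y) * (x : ℂ) ^ (-s - 2)) (Ioi 0) ∧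
    ∫ x in Ioi (0 : ℝ), (∫ y in Ioc 0 x, u y) * (x : ℂ) ^ (-s - 2) =
      (∫ y in Ioi (0 : ℝ), u y * (y : ℂ) ^ (-s - 1)) / (s + 1) := by
  set S : Set (ℝ × ℝ) := {p | p.2 ≤ p.1} with hS
  have hSm : MeasurableSet S := measurableSet_le measurable_snd measurable_fst
  set G : ℝ × ℝ → ℂ := fun p => u p.2 * (p.1 : ℂ) ^ (-s - 2) with hG
  have hGm : Measurable G := by
    refine (hu.comp measurable_snd).mul ?_
    exact (Complex.measurable_ofReal.comp measurable_fst).pow_const _
  set F : ℝ × ℝ → ℂ := S.indicator G with hF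
  have hFm : Measurable F := hGm.indicator hSm
  have hre : (-s - 2).re = -s.re - 2 := by simp
  have hs1 : s + 1 ≠ 0 := by
    intro h
    have := congrArg Complex.re h
    simp at this
    linarith
  -- sections in `x`
  have secy : ∀ y : ℝ, (fun x : ℝ => F (x, y)) = (Ici y).indicator (fun x => u y * (x : ℂ) ^ (-s - 2)) := by
    intro y
    ext x
    by_cases h : y ≤ x
    · rw [indicator_of_mem (show x ∈ Ici y from h), hF, indicator_of_mem (show (x, y) ∈ S from h)]
    · rw [indicator_of_notMem (show x ∉ Ici y from h), hF, indicator_of_notMem (show (x, y) ∉ S from h)]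
  have secx : ∀ x : ℝ, (fun y : ℝ => F (x, y)) = (Iic x).indicator (fun y => u y * (x : ℂ) ^ (-s - 2)) := by
    intro x
    ext y
    by_cases h : y ≤ x
    · rw [indicator_of_mem (show y ∈ Iic x from h), hF, indicator_of_mem (show (x, y) ∈ S from h)]
    · rw [indicator_of_notMem (show y ∉ Iic x from h), hF, indicator_of_notMem (show (x, y) ∉ S from h)]
  have sety : ∀ y : ℝ, 0 < y → Ici y ∩ Ioi 0 = Ici y := by
    intro y hy
    ext x
    simp only [mem_inter_iff, mem_Ici, mem_Ioi]
    exact ⟨fun h => h.1, fun h => ⟨h, lt_of_lt_of_le hy h⟩⟩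
  have setx : ∀ x : ℝ, Iic x ∩ Ioi 0 = Ioc 0 x := by
    intro x
    ext y
    simp only [mem_inter_iff, mem_Iic, mem_Ioi, mem_Ioc]
    exact ⟨fun h => ⟨h.2, h.1⟩, fun h => ⟨h.2, h.1⟩⟩
  have inty : ∀ y : ℝ, 0 < y → IntegrableOn (fun x : ℝ => F (x, y)) (Ioi 0) := by
    intro y hy
    rw [secy y]
    unfold IntegrableOn
    rw [integrable_indicator_iff measurableSet_Ici, IntegrableOn, Measure.restrict_restrict measurableSet_Ici,
      sety y hy, ← IntegrableOn, integrableOn_Ici_iff_integrableOn_Ioi]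
    exact (integrableOn_Ioi_cpow_of_lt (by rw [hre]; linarith) hy).const_mul _
  have normy : ∀ y : ℝ, 0 < y → ∫ x in Ioi (0 : ℝ), ‖F (x, y)‖ = (‖u y‖ * y ^ (-s.re - 1)) * (1 / (s.re + 1)) := by
    intro y hy
    have e1 : (fun x : ℝ => ‖F (x, y)‖) = (Ici y).indicator (fun x => ‖u y * (x : ℂ) ^ (-s - 2)‖) := by
      ext x
      rw [← norm_indicator_eq_indicator_norm]
      exact congrArg norm (congrFun (secy y) x)
    rw [e1, integral_indicator measurableSet_Ici, Measure.restrict_restrict measurableSet_Ici, sety y hy,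
      integral_Ici_eq_integral_Ioi]
    have e2 : ∫ x in Ioi y, ‖u y * (x : ℂ) ^ (-s - 2)‖ = ∫ x in Ioi y, ‖u y‖ * x ^ (-s.re - 2) := by
      refine setIntegral_congr_fun measurableSet_Ioi fun x hx => ?_
      have hx0 : 0 < x := lt_trans hy hx
      rw [norm_mul, Complex.norm_cpow_eq_rpow_re_of_pos hx0, hre]
    rw [e2, integral_const_mul, integral_Ioi_rpow_of_lt (by linarith) hy]
    have e3 : -s.re - 2 + 1 = -(s.re + 1) := by ring
    have e4 : s.re + 1 ≠ 0 := by linarith
    rw [e3, show -(s.re + 1) = -s.re - 1 by ring]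
    have e5 : (-s.re - 1) ≠ 0 := by linarith
    field_simp
    ring
  have hFi : Integrable F ((volume.restrict (Ioi (0 : ℝ))).prod (volume.restrict (Ioi (0 : ℝ)))) := by
    rw [integrable_prod_iff' hFm.aestronglyMeasurable]
    constructor
    · rw [ae_restrict_iff' measurableSet_Ioi]
      exact Eventually.of_forall fun y hy => inty y hy
    · refine (hI.mul_const (1 / (s.re + 1))).congr ?_
      rw [EventuallyEq, ae_restrict_iff' measurableSet_Ioi]
      exact Eventually.of_forall fun y hy => (normy y hy).symm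
  have hx : ∀ x : ℝ, ∫ y in Ioi (0 : ℝ), F (x, y) = (∫ y in Ioc 0 x, u y) * (x : ℂ) ^ (-s - 2) := by
    intro x
    rw [secx x, integral_indicator measurableSet_Iic, Measure.restrict_restrict measurableSet_Iic, setx x,
      integral_mul_const]
  constructor
  · refine hFi.integral_prod_left.congr ?_
    exact Eventually.of_forall fun x => hx x
  · have h1 := integral_integral_swap (f := fun x y => F (x, y)) (μ := volume.restrict (Ioi (0 : ℝ)))
      (ν := volume.restrict (Ioi (0 : ℝ))) hFi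
    simp only [hx] at h1
    rw [h1, ← integral_div]
    refine setIntegral_congr_fun measurableSet_Ioi fun y hy => ?_
    have hy0 : 0 < y := hy
    rw [secy y, integral_indicator measurableSet_Ici, Measure.restrict_restrict measurableSet_Ici, sety y hy,
      integral_Ici_eq_integral_Ioi, integral_const_mul, integral_Ioi_cpow_of_lt (by rw [hre]; linarith) hy0]
    have e3 : -s - 2 + 1 = -s - 1 := by ring
    have e4 : -s - 1 ≠ 0 := by
      intro h
      apply hs1
      linear_combination -h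
    rw [e3]
    field_simp
    ring

/-- Mellin inversion for the primitive -/
theorem inv {u : ℝ → ℂ} (hu : Measurable u) {B σ : ℝ} (hB : ∀ y, ‖u y‖ ≤ B) (hσ : 0 < σ)
    (hI : IntegrableOn (fun y : ℝ => ‖u y‖ * y ^ (-σ - 1)) (Ioi 0)) {U : ℝ → ℂ}
    (hU : ∀ t : ℝ, ∫ y in Ioi (0 : ℝ), u y * (y : ℂ) ^ (-((σ : ℂ) + t * I) - 1) = U t)
    (hi : Integrable (fun t : ℝ => U t / ((σ : ℂ) + t * I + 1))) {x : ℝ} (hx : 0 < x) :
    ∫ y in (0 : ℝ)..x, u y = 1 / (2 * Real.pi) * ∫ t : ℝ, (x : ℂ) ^ ((σ : ℂ) + t * I + 1) *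
      (U t / ((σ : ℂ) + t * I + 1)) := by
  have hre : ∀ t : ℝ, ((σ : ℂ) + t * I).re = σ := fun t => by simp
  set V : ℝ → ℂ := fun x => ∫ y in (0 : ℝ)..x, u y with hV
  have hVc : Continuous V := by
    refine intervalIntegral.continuous_primitive (fun a b => ?_) 0
    refine intervalIntegrable_iff.2 ?_
    refine (integrableOn_const (C := B) (by simp [uIoc])).mono' hu.aestronglyMeasurable ?_
    exact Eventually.of_forall fun y => hB y
  have hVI : ∀ x : ℝ, 0 < x → V x = ∫ y in Ioc 0 x, u y := fun x hx => intervalIntegral.integral_of_le hx.le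
  have hm : ∀ t : ℝ, mellin V (((-σ - 1 : ℝ) : ℂ) + t * I) = U (-t) / ((σ : ℂ) + ((-t : ℝ) : ℂ) * I + 1) := by
    intro t
    have h1 := (fub hu (s := (σ : ℂ) + ((-t : ℝ) : ℂ) * I) (by rw [hre]; exact hσ)
      (by rw [hre]; exact hI)).2
    rw [hU] at h1
    rw [← h1, mellin]
    refine setIntegral_congr_fun measurableSet_Ioi fun y hy => ?_
    simp only [smul_eq_mul]
    rw [hVI y hy, mul_comm]
    congr 2
    push_cast
    ring
  have hconv : MellinConvergent V ((-σ - 1 : ℝ) : ℂ) := by
    have h1 := (fub hu (s := (σ : ℂ) + ((0 : ℝ) : ℂ) * I) (by rw [hre]; exact hσ)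
      (by rw [hre]; exact hI)).1
    unfold MellinConvergent
    refine h1.congr ?_
    rw [EventuallyEq, ae_restrict_iff' measurableSet_Ioi]
    refine Eventually.of_forall fun y hy => ?_
    simp only [smul_eq_mul]
    rw [hVI y hy, mul_comm]
    congr 2
    push_cast
    ring
  have hvert : VerticalIntegrable (mellin V) (-σ - 1) := by
    unfold VerticalIntegrable
    simp only [hm]
    exact hi.comp_neg
  have h2 := mellinInv_mellin_eq (-σ - 1) V hx hconv hvert hVc.continuousAt
  have h3 : V x = mellinInv (-σ - 1) (mellin V) x := h2.symm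
  calc ∫ y in (0 : ℝ)..x, u y = V x := rfl
    _ = mellinInv (-σ - 1) (mellin V) x := h3
    _ = 1 / (2 * Real.pi) * ∫ t : ℝ, (x : ℂ) ^ (-(((-σ - 1 : ℝ) : ℂ) + t * I)) *
          mellin V (((-σ - 1 : ℝ) : ℂ) + t * I) := by
        rw [mellinInv, Complex.real_smul]
        push_cast
        rfl
    _ = 1 / (2 * Real.pi) * ∫ t : ℝ, (fun t : ℝ => (x : ℂ) ^ ((σ : ℂ) + t * I + 1) *
          (U t / ((σ : ℂ) + t * I + 1))) (-t) := by
        congr 1
        refine integral_congr_ae (Eventually.of_forall fun t => ?_)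
        simp only [hm]
        congr 2
        push_cast
        ring
    _ = _ := congrArg (fun z : ℂ => 1 / (2 * (Real.pi : ℂ)) * z)
        (integral_neg_eq_self (fun t : ℝ => (x : ℂ) ^ ((σ : ℂ) + t * I + 1) *
          (U t / ((σ : ℂ) + t * I + 1))) volume)

end Pool.Agent.Q211.NB
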