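import Pool.Agent.Q211.NB.MV
import Pool.Agent.Q211.NB.MSW

set_option autoImplicit false

/-!
# Project NB: the pointwise bound
-/

namespace Pool.Agent.Q211.NB

open Complex MeasureTheory Filter Topology Set
open Pool.Agent.Q120.NB

theorem ey_meas (N : ℕ) (a : ℕ → ℂ) : Measurable (ey N a) := by
  unfold ey
  refine Measurable.sub (Measurable.ite measurableSet_Ici measurable_const measurable_const) ?_
  refine Finset.measurable_fun_sum _ fun n _ => ?_
  exact ((Complex.measurable_ofReal.comp (measurable_fract.comp (measurable_id.div_const _)))).const_mul _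

theorem ey_bdd (N : ℕ) (a : ℕ → ℂ) (y : ℝ) : ‖ey N a y‖ ≤ 1 + ∑ n ∈ Finset.Icc 1 N, ‖a n‖ := by
  unfold ey
  refine (norm_sub_le _ _).trans (add_le_add ?_ ?_)
  · split_ifs <;> simp
  · refine (norm_sum_le _ _).trans (Finset.sum_le_sum fun n _ => ?_)
    rw [norm_mul, Complex.norm_real, Real.norm_eq_abs, abs_of_nonneg (Int.fract_nonneg _)]
    exact mul_le_of_le_one_right (norm_nonneg _) (Int.fract_lt_one _).le

/-- the Mellin transform of the error -/
theorem ey_mel (N : ℕ) (a : ℕ → ℂ) {s : ℂ} (h0 : 0 < s.re) (h1 : s.re < 1) :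
    IntegrableOn (fun y : ℝ => ey N a y * (y : ℂ) ^ (-s - 1)) (Ioi 0) ∧
    ∫ y in Ioi (0 : ℝ), ey N a y * (y : ℂ) ^ (-s - 1) =
      (1 + riemannZeta s * ∑ n ∈ Finset.Icc 1 N, a n * (n : ℂ) ^ (-s)) / s := by
  have hs0 : s ≠ 0 := by
    intro h
    rw [h] at h0
    simp at h0
  have hre : (-s - 1).re < -1 := by
    rw [Complex.sub_re, Complex.neg_re, Complex.one_re]
    linarith
  have e1 : (fun y : ℝ => ey N a y * (y : ℂ) ^ (-s - 1)) = fun y : ℝ =>
      (Ici (1 : ℝ)).indicator (fun y : ℝ => (y : ℂ) ^ (-s - 1)) y -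
      ∑ n ∈ Finset.Icc 1 N, a n * (((Int.fract (y / (n : ℝ)) : ℝ) : ℂ) * (y : ℂ) ^ (-s - 1)) := by
    ext y
    unfold ey
    rw [sub_mul, Finset.sum_mul]
    congr 1
    · by_cases h : (1 : ℝ) ≤ y
      · rw [if_pos h, indicator_of_mem (show y ∈ Ici (1 : ℝ) from h), one_mul]
      · rw [if_neg h, indicator_of_notMem (show y ∉ Ici (1 : ℝ) from h), zero_mul]
    · exact Finset.sum_congr rfl fun n _ => by ring
  have seteq : Ici (1 : ℝ) ∩ Ioi 0 = Ici 1 := by
    ext y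
    simp only [mem_inter_iff, mem_Ici, mem_Ioi]
    exact ⟨fun h => h.1, fun h => ⟨h, by linarith⟩⟩
  have i1 : IntegrableOn (fun y : ℝ => (Ici (1 : ℝ)).indicator (fun y : ℝ => (y : ℂ) ^ (-s - 1)) y) (Ioi 0) := by
    unfold IntegrableOn
    rw [integrable_indicator_iff measurableSet_Ici, IntegrableOn, Measure.restrict_restrict measurableSet_Ici,
      seteq, ← IntegrableOn, integrableOn_Ici_iff_integrableOn_Ioi]
    exact integrableOn_Ioi_cpow_of_lt hre one_pos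
  have i2 : ∀ n ∈ Finset.Icc 1 N, IntegrableOn
      (fun y : ℝ => a n * (((Int.fract (y / (n : ℝ)) : ℝ) : ℂ) * (y : ℂ) ^ (-s - 1))) (Ioi 0) :=
    fun n hn => (Pool.Agent.Q237.BD.fr_int (Finset.mem_Icc.1 hn).1 h0 h1).const_mul _
  rw [e1]
  refine ⟨i1.sub (integrable_finsetSum _ i2), ?_⟩
  rw [integral_sub i1 (integrable_finsetSum _ i2), integral_finsetSum _ i2,
    integral_indicator measurableSet_Ici, Measure.restrict_restrict measurableSet_Ici, seteq,
    integral_Ici_eq_integral_Ioi, integral_Ioi_cpow_of_lt hre one_pos]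
  have e2 : ∑ n ∈ Finset.Icc 1 N, ∫ y in Ioi (0 : ℝ), a n * (((Int.fract (y / (n : ℝ)) : ℝ) : ℂ) *
      (y : ℂ) ^ (-s - 1)) = -(riemannZeta s * ∑ n ∈ Finset.Icc 1 N, a n * (n : ℂ) ^ (-s)) / s := by
    rw [Finset.mul_sum, ← Finset.sum_neg_distrib, Finset.sum_div]
    refine Finset.sum_congr rfl fun n hn => ?_
    rw [integral_const_mul, Pool.Agent.Q237.BD.fr_mel (Finset.mem_Icc.1 hn).1 h0 h1]
    ring
  rw [e2, ofReal_one, one_cpow, show -s - 1 + 1 = -s by ring]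
  field_simp
  ring

/-- the quotient of powers -/
theorem Qb {k : ℝ} (hk : 1 ≤ k) {s : ℂ} (hs : 0 ≤ s.re) {d : ℝ} (hd0 : 0 ≤ d) (hd1 : d ≤ 1) :
    ‖(((k + 1 : ℝ) : ℂ) ^ (s + 1) - (k : ℂ) ^ (s + 1)) / (s + 1)‖ ≤
      (k + 1) ^ (s.re + d) * (2 / ‖s + 1‖) ^ d := by
  have hs1 : s + 1 ≠ 0 := by
    intro h
    have := congrArg Complex.re h
    simp at this
    linarith
  have hn : 0 < ‖s + 1‖ := norm_pos_iff.2 hs1
  have hk0 : 0 < k := by linarith
  have hk1 : 0 < k + 1 := by linarith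
  set q : ℝ := ‖(((k + 1 : ℝ) : ℂ) ^ (s + 1) - (k : ℂ) ^ (s + 1)) / (s + 1)‖ with hq
  have q1 : q ≤ (k + 1) ^ s.re := by
    have h1 : (((k + 1 : ℝ) : ℂ) ^ (s + 1) - (k : ℂ) ^ (s + 1)) / (s + 1) =
        ∫ x in k..(k + 1), (x : ℂ) ^ s := by
      rw [integral_cpow]
      left
      linarith
    rw [hq, h1]
    have h2 := intervalIntegral.norm_integral_le_of_norm_le_const (a := k) (b := k + 1)
      (f := fun x : ℝ => (x : ℂ) ^ s) (C := (k + 1) ^ s.re) (fun x hx => by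
        rw [uIoc_of_le (by linarith)] at hx
        have hx0 : 0 < x := lt_trans hk0 hx.1
        rw [Complex.norm_cpow_eq_rpow_re_of_pos hx0]
        exact Real.rpow_le_rpow hx0.le hx.2 hs)
    rwa [add_sub_cancel_left, abs_one, mul_one] at h2
  have q2 : q ≤ (k + 1) ^ (s.re + 1) * (2 / ‖s + 1‖) := by
    rw [hq, norm_div]
    have h3 : ‖((k + 1 : ℝ) : ℂ) ^ (s + 1) - (k : ℂ) ^ (s + 1)‖ ≤ (k + 1) ^ (s.re + 1) * 2 := by
      refine (norm_sub_le _ _).trans ?_
      rw [Complex.norm_cpow_eq_rpow_re_of_pos hk1, Complex.norm_cpow_eq_rpow_re_of_pos hk0]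
      simp only [Complex.add_re, Complex.one_re]
      have h4 : k ^ (s.re + 1) ≤ (k + 1) ^ (s.re + 1) :=
        Real.rpow_le_rpow hk0.le (by linarith) (by linarith)
      linarith
    calc _ ≤ (k + 1) ^ (s.re + 1) * 2 / ‖s + 1‖ := div_le_div_of_nonneg_right h3 hn.le
      _ = _ := by ring
  rcases eq_or_lt_of_le (norm_nonneg ((((k + 1 : ℝ) : ℂ) ^ (s + 1) - (k : ℂ) ^ (s + 1)) / (s + 1))) with h | h
  · rw [← hq] at h
    rw [← h]
    positivity
  · rw [← hq] at h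
    have e1 : q = q ^ (1 - d) * q ^ d := by
      rw [← Real.rpow_add h, show 1 - d + d = 1 by ring, Real.rpow_one]
    rw [e1]
    calc q ^ (1 - d) * q ^ d ≤ ((k + 1) ^ s.re) ^ (1 - d) * ((k + 1) ^ (s.re + 1) * (2 / ‖s + 1‖)) ^ d :=
          mul_le_mul (Real.rpow_le_rpow h.le q1 (by linarith)) (Real.rpow_le_rpow h.le q2 hd0)
            (by positivity) (by positivity)
      _ = (k + 1) ^ (s.re + d) * (2 / ‖s + 1‖) ^ d := by
          rw [Real.mul_rpow (by positivity) (by positivity), ← Real.rpow_mul hk1.le, ← Real.rpow_mul hk1.le,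
            ← mul_assoc, ← Real.rpow_add hk1]
          congr 2
          ring

theorem n1 {σ : ℝ} (hσ : 1 / 2 < σ) (t : ℝ) : (1 + |t|) / 3 ≤ ‖(σ : ℂ) + t * I‖ := by
  have h1 : |((σ : ℂ) + t * I).re| ≤ ‖(σ : ℂ) + t * I‖ := Complex.abs_re_le_norm _
  have h2 : |((σ : ℂ) + t * I).im| ≤ ‖(σ : ℂ) + t * I‖ := Complex.abs_im_le_norm _
  simp at h1 h2
  have h3 := le_abs_self σ
  rcases le_total |t| (1 / 2) with h | h <;> linarith

theorem n2 {σ : ℝ} (hσ : 1 / 2 < σ) (t : ℝ) : (1 + |t|) / 2 ≤ ‖(σ : ℂ) + t * I + 1‖ := by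
  have h1 : |((σ : ℂ) + t * I + 1).re| ≤ ‖(σ : ℂ) + t * I + 1‖ := Complex.abs_re_le_norm _
  have h2 : |((σ : ℂ) + t * I + 1).im| ≤ ‖(σ : ℂ) + t * I + 1‖ := Complex.abs_im_le_norm _
  simp at h1 h2
  have h3 := le_abs_self (σ + 1)
  rcases le_total |t| 1 with h | h <;> linarith

/-- the integral of the error over `[k, k + 1]` -/
theorem Vdiff {σ e B : ℝ} (hσ : 1 / 2 < σ) (hσ1 : σ < 1) (he : 0 < e) (he1 : 2 * e ≤ 1) (hB : 0 ≤ B)
    (N : ℕ) (a : ℕ → ℂ) (hb : ∀ t : ℝ, ‖1 + riemannZeta (σ + t * I) *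
      ∑ n ∈ Finset.Icc 1 N, a n * (n : ℂ) ^ (-((σ : ℂ) + t * I))‖ ≤
        B * (‖riemannZeta (σ + t * I)‖ * (1 + |t|) ^ e)) {k : ℝ} (hk : 1 ≤ k) :
    ‖∫ y in k..(k + 1), ey N a y‖ ≤
      2 * B * (k + 1) ^ (σ + 2 * e) * ∫ t : ℝ, ‖riemannZeta (σ + t * I)‖ * (1 + |t|) ^ (-1 - e) := by
  have hσ0 : 0 < σ := by linarith
  have hre : ∀ t : ℝ, ((σ : ℂ) + t * I).re = σ := fun t => by simp
  have hu := ey_meas N a
  set U : ℝ → ℂ := fun t => (1 + riemannZeta (σ + t * I) *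
      ∑ n ∈ Finset.Icc 1 N, a n * (n : ℂ) ^ (-((σ : ℂ) + t * I))) / ((σ : ℂ) + t * I) with hU
  have hs0 : ∀ t : ℝ, (σ : ℂ) + t * I ≠ 0 := fun t h => by
    have := congrArg Complex.re h
    simp at this
    linarith
  have hs1 : ∀ t : ℝ, (σ : ℂ) + t * I + 1 ≠ 0 := fun t h => by
    have := congrArg Complex.re h
    simp at this
    linarith
  have hUe : ∀ t : ℝ, ∫ y in Ioi (0 : ℝ), ey N a y * (y : ℂ) ^ (-((σ : ℂ) + t * I) - 1) = U t :=
    fun t => (ey_mel N a (by rw [hre]; exact hσ0) (by rw [hre]; exact hσ1)).2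
  have hI : IntegrableOn (fun y : ℝ => ‖ey N a y‖ * y ^ (-σ - 1)) (Ioi 0) := by
    have h1 := (ey_mel N a (s := (σ : ℂ) + ((0 : ℝ) : ℂ) * I) (by rw [hre]; exact hσ0)
      (by rw [hre]; exact hσ1)).1.norm
    refine h1.congr ?_
    rw [EventuallyEq, ae_restrict_iff' measurableSet_Ioi]
    refine Eventually.of_forall fun y hy => ?_
    rw [norm_mul, Complex.norm_cpow_eq_rpow_re_of_pos hy]
    simp
  have hUc : Continuous U := by
    refine Continuous.div ?_ (by fun_prop) hs0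
    refine continuous_const.add ((zcont hσ1).mul (continuous_finsetSum _ fun n hn => ?_))
    have hn1 : 1 ≤ n := (Finset.mem_Icc.1 hn).1
    refine continuous_const.mul (Continuous.const_cpow (by fun_prop) (Or.inl ?_))
    exact_mod_cast (by omega : n ≠ 0)
  have hUn : ∀ t : ℝ, ‖U t‖ ≤ 3 * B * (‖riemannZeta (σ + t * I)‖ * (1 + |t|) ^ (e - 1)) := by
    intro t
    have ht : 0 < 1 + |t| := by positivity
    rw [hU]
    simp only
    rw [norm_div, div_le_iff₀ (norm_pos_iff.2 (hs0 t))]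
    refine (hb t).trans ?_
    have e1 : (1 + |t|) ^ e = (1 + |t|) ^ (e - 1) * (1 + |t|) := by
      rw [← Real.rpow_add_one ht.ne']
      congr 1
      ring
    calc B * (‖riemannZeta (σ + t * I)‖ * (1 + |t|) ^ e) =
          3 * B * (‖riemannZeta (σ + t * I)‖ * (1 + |t|) ^ (e - 1)) * ((1 + |t|) / 3) := by
            rw [e1]
            ring
      _ ≤ _ := mul_le_mul_of_nonneg_left (n1 hσ t) (by positivity)
  have hzw := zw1 hσ hσ1 he
  set J : ℝ := ∫ t : ℝ, ‖riemannZeta (σ + t * I)‖ * (1 + |t|) ^ (-1 - e) with hJ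
  have hi : Integrable (fun t : ℝ => U t / ((σ : ℂ) + t * I + 1)) := by
    refine (hzw.const_mul (6 * B)).mono' (hUc.div (by fun_prop) hs1).aestronglyMeasurable
      (Eventually.of_forall fun t => ?_)
    have ht : 0 < 1 + |t| := by positivity
    rw [norm_div, div_le_iff₀ (norm_pos_iff.2 (hs1 t))]
    refine (hUn t).trans ?_
    have e2 : (1 + |t|) ^ (e - 1) ≤ (1 + |t|) ^ (-1 - e) * (1 + |t|) := by
      rw [← Real.rpow_add_one ht.ne']
      exact Real.rpow_le_rpow_of_exponent_le (by linarith [abs_nonneg t]) (by linarith)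
    calc 3 * B * (‖riemannZeta (σ + t * I)‖ * (1 + |t|) ^ (e - 1)) ≤
          3 * B * (‖riemannZeta (σ + t * I)‖ * ((1 + |t|) ^ (-1 - e) * (1 + |t|))) :=
            mul_le_mul_of_nonneg_left (mul_le_mul_of_nonneg_left e2 (norm_nonneg _)) (by positivity)
      _ = 6 * B * (‖riemannZeta (σ + t * I)‖ * (1 + |t|) ^ (-1 - e)) * ((1 + |t|) / 2) := by ring
      _ ≤ _ := mul_le_mul_of_nonneg_left (n2 hσ t) (by positivity)
  have hk0 : 0 < k := by linarith
  have hk1 : 0 < k + 1 := by linarith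
  have hii : ∀ a' b' : ℝ, IntervalIntegrable (ey N a) volume a' b' := fun a' b' => by
    refine intervalIntegrable_iff.2 ?_
    refine (integrableOn_const (C := 1 + ∑ n ∈ Finset.Icc 1 N, ‖a n‖) (by simp [uIoc])).mono'
      hu.aestronglyMeasurable ?_
    exact Eventually.of_forall fun y => ey_bdd N a y
  have v1 := inv hu (ey_bdd N a) hσ0 hI hUe hi hk1
  have v0 := inv hu (ey_bdd N a) hσ0 hI hUe hi hk0
  have hdiff : ∫ y in k..(k + 1), ey N a y = (∫ y in (0 : ℝ)..(k + 1), ey N a y) - ∫ y in (0 : ℝ)..k, ey N a y := by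
    rw [intervalIntegral.integral_interval_sub_left (hii _ _) (hii _ _)]
  have hcw : ∀ x : ℝ, 0 < x → Integrable (fun t : ℝ => (x : ℂ) ^ ((σ : ℂ) + t * I + 1) *
      (U t / ((σ : ℂ) + t * I + 1))) := by
    intro x hx
    refine Integrable.bdd_mul (c := x ^ (σ + 1)) hi ?_ ?_
    · refine Continuous.aestronglyMeasurable (Continuous.const_cpow (by fun_prop) (Or.inl ?_))
      exact_mod_cast hx.ne'
    · refine Eventually.of_forall fun t => ?_
      rw [Complex.norm_cpow_eq_rpow_re_of_pos hx]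
      simp
  rw [hdiff, v1, v0, ← mul_sub, ← integral_sub (hcw _ hk1) (hcw _ hk0), norm_mul]
  have hpi : ‖(1 : ℂ) / (2 * (Real.pi : ℂ))‖ ≤ 1 / 6 := by
    rw [norm_div, norm_one, norm_mul, Complex.norm_real, Real.norm_of_nonneg Real.pi_pos.le]
    simp only [Complex.norm_ofNat]
    refine one_div_le_one_div_of_le (by norm_num) ?_
    linarith [Real.pi_gt_three]
  have hmain : ‖∫ t : ℝ, ((((k + 1 : ℝ) : ℂ) ^ ((σ : ℂ) + t * I + 1) * (U t / ((σ : ℂ) + t * I + 1))) -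
      (k : ℂ) ^ ((σ : ℂ) + t * I + 1) * (U t / ((σ : ℂ) + t * I + 1)))‖ ≤
      12 * B * (k + 1) ^ (σ + 2 * e) * J := by
    rw [hJ, ← integral_const_mul]
    refine norm_integral_le_of_norm_le (hzw.const_mul _) (Eventually.of_forall fun t => ?_)
    have ht : 0 < 1 + |t| := by positivity
    have e1 : (((k + 1 : ℝ) : ℂ) ^ ((σ : ℂ) + t * I + 1) * (U t / ((σ : ℂ) + t * I + 1))) -
        (k : ℂ) ^ ((σ : ℂ) + t * I + 1) * (U t / ((σ : ℂ) + t * I + 1)) =
        ((((k + 1 : ℝ) : ℂ) ^ ((σ : ℂ) + t * I + 1) - (k : ℂ) ^ ((σ : ℂ) + t * I + 1)) /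
          ((σ : ℂ) + t * I + 1)) * U t := by ring
    rw [e1, norm_mul]
    have h1 := Qb hk (s := (σ : ℂ) + t * I) (by rw [hre]; exact hσ0.le) (d := 2 * e) (by linarith) he1
    rw [hre] at h1
    have h2 : (2 / ‖(σ : ℂ) + t * I + 1‖) ^ (2 * e) ≤ 4 * (1 + |t|) ^ (-(2 * e)) := by
      have h3 : 2 / ‖(σ : ℂ) + t * I + 1‖ ≤ 4 / (1 + |t|) := by
        rw [div_le_div_iff₀ (norm_pos_iff.2 (hs1 t)) ht]
        have := n2 hσ t
        linarith
      calc (2 / ‖(σ : ℂ) + t * I + 1‖) ^ (2 * e) ≤ (4 / (1 + |t|)) ^ (2 * e) :=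
            Real.rpow_le_rpow (by positivity) h3 (by linarith)
        _ = 4 ^ (2 * e) * (1 + |t|) ^ (-(2 * e)) := by
            rw [Real.div_rpow (by norm_num) ht.le, Real.rpow_neg ht.le, div_eq_mul_inv]
        _ ≤ 4 * (1 + |t|) ^ (-(2 * e)) := by
            refine mul_le_mul_of_nonneg_right ?_ (by positivity)
            calc (4 : ℝ) ^ (2 * e) ≤ 4 ^ (1 : ℝ) :=
                  Real.rpow_le_rpow_of_exponent_le (by norm_num) he1
              _ = 4 := Real.rpow_one _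
    have hk3 : 0 < (k + 1) ^ (σ + 2 * e) := by positivity
    calc _ ≤ ((k + 1) ^ (σ + 2 * e) * (4 * (1 + |t|) ^ (-(2 * e)))) *
          (3 * B * (‖riemannZeta (σ + t * I)‖ * (1 + |t|) ^ (e - 1))) := by
            refine mul_le_mul (h1.trans (mul_le_mul_of_nonneg_left h2 hk3.le)) (hUn t) (norm_nonneg _)
              (by positivity)
      _ = 12 * B * (k + 1) ^ (σ + 2 * e) * (‖riemannZeta (σ + t * I)‖ *
            ((1 + |t|) ^ (-(2 * e)) * (1 + |t|) ^ (e - 1))) := by ring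
      _ = 12 * B * (k + 1) ^ (σ + 2 * e) * (‖riemannZeta (σ + t * I)‖ * (1 + |t|) ^ (-1 - e)) := by
            rw [← Real.rpow_add ht]
            congr 3
            ring
  calc _ ≤ 1 / 6 * (12 * B * (k + 1) ^ (σ + 2 * e) * J) :=
        mul_le_mul hpi hmain (norm_nonneg _) (by norm_num)
    _ = 2 * B * (k + 1) ^ (σ + 2 * e) * J := by ring

/-- the slope -/
noncomputable def slo (N : ℕ) (a : ℕ → ℂ) : ℂ := -∑ n ∈ Finset.Icc 1 N, a n / (n : ℂ)

/-- the error is linear between integers -/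
theorem ey_lin (N : ℕ) (a : ℕ → ℂ) (k : ℕ) {y : ℝ} (h0 : (k : ℝ) ≤ y) (h1 : y < k + 1) :
    ey N a y = ey N a k + slo N a * ((y : ℂ) - k) := by
  have hk0 : (0 : ℝ) ≤ k := Nat.cast_nonneg k
  have hf : ⌊y⌋ = (k : ℤ) := by
    rw [Int.floor_eq_iff]
    push_cast
    exact ⟨h0, h1⟩
  unfold ey slo
  have e1 : (if (1 : ℝ) ≤ y then (1 : ℂ) else 0) = if (1 : ℝ) ≤ (k : ℝ) then (1 : ℂ) else 0 := by
    by_cases h : (1 : ℝ) ≤ (k : ℝ)
    · rw [if_pos h, if_pos (h.trans h0)]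
    · have h2 : ¬ (1 : ℝ) ≤ y := by
        intro h3
        have h4 : k < 1 := by
          by_contra h5
          exact h (by exact_mod_cast (by omega : 1 ≤ k))
        have h5 : k = 0 := by omega
        rw [h5] at h1
        simp at h1
        linarith
      rw [if_neg h, if_neg h2]
  rw [e1, sub_add, sub_right_inj, neg_mul, sub_neg_eq_add, Finset.sum_mul, ← Finset.sum_add_distrib]
  refine Finset.sum_congr rfl fun n hn => ?_
  have hfr : Int.fract (y / (n : ℝ)) = Int.fract ((k : ℝ) / (n : ℝ)) + (y - k) / n := by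
    unfold Int.fract
    rw [Int.floor_div_natCast, Int.floor_div_natCast, hf, Int.floor_natCast]
    ring
  rw [hfr]
  push_cast
  ring

theorem ey_int (N : ℕ) (a : ℕ → ℂ) (k : ℕ) :
    ∫ y in (k : ℝ)..((k : ℝ) + 1), ey N a y = ey N a k + slo N a / 2 := by
  have h1 : ∫ y in (k : ℝ)..((k : ℝ) + 1), ey N a y =
      ∫ y in (k : ℝ)..((k : ℝ) + 1), (ey N a k + slo N a * ((y : ℂ) - k)) := by
    refine intervalIntegral.integral_congr_ae ?_
    have h2 : ∀ᵐ y : ℝ, y ≠ (k : ℝ) + 1 := by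
      rw [ae_iff]
      simp
    filter_upwards [h2] with y hy hy2
    rw [uIoc_of_le (by linarith)] at hy2
    exact ey_lin N a k hy2.1.le (lt_of_le_of_ne hy2.2 hy)
  have h3 : ∀ y ∈ uIcc (k : ℝ) ((k : ℝ) + 1), HasDerivAt (fun y : ℝ => ey N a k * (y : ℂ) +
      slo N a * (((y : ℂ) - k) ^ 2 / 2)) (ey N a k + slo N a * ((y : ℂ) - k)) y := by
    intro y _
    have h4 : HasDerivAt (fun y : ℝ => (y : ℂ)) 1 y := Complex.ofRealCLM.hasDerivAt
    have h5 := (h4.const_mul (ey N a k)).add ((((h4.sub_const (k : ℂ)).pow 2).div_const 2).const_mul (slo N a))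
    refine h5.congr_deriv ?_
    push_cast
    ring
  rw [h1, intervalIntegral.integral_eq_sub_of_hasDerivAt h3
    (Continuous.intervalIntegrable (by fun_prop) _ _)]
  push_cast
  ring

theorem ey_zero (N : ℕ) (a : ℕ → ℂ) : ey N a (0 : ℝ) = 0 := by
  unfold ey
  rw [if_neg (by norm_num)]
  simp

/-- the bound for the slope -/
theorem slo_bd (hMEL : J_MEL) (hUP : J_UP) {θ : ℝ} (hθ : 1 / 2 ≤ θ)
    (hz : ∀ s : ℂ, θ < s.re → riemannZeta s ≠ 0) {σ ε : ℝ} (h1 : θ < σ) (h2 : σ < 1) (hε : 0 < ε) :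
    ∃ C : ℝ, 0 < C ∧ ∀ N : ℕ, 1 ≤ N → ‖slo N (mob N)‖ ≤ C * (N : ℝ) ^ (θ - σ + ε) := by
  obtain ⟨C, hC, H⟩ := hUP θ hθ hz σ (2 * ε) h1 h2 (by linarith)
  refine ⟨Real.sqrt (2 * C), by positivity, fun N hN => ?_⟩
  have hN1 : (1 : ℝ) ≤ N := by exact_mod_cast hN
  have hN0 : (0 : ℝ) < N := by linarith
  obtain ⟨hi, -, -⟩ := hMEL σ (by linarith) h2 N (mob N) hN
  set m : ℂ := slo N (mob N) with hm
  have k1 : ∫ y in Ioo (0 : ℝ) 1, ‖ey N (mob N) y‖ ^ 2 * y ^ (-(2 * σ) - 1) ≤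
      C * (N : ℝ) ^ (2 * (θ - σ) + 2 * ε) := by
    refine le_trans (setIntegral_mono_set hi ?_ (Eventually.of_forall fun y hy => hy.1)) (H N hN)
    rw [EventuallyLE, ae_restrict_iff' measurableSet_Ioi]
    refine Eventually.of_forall fun y hy => ?_
    have hy0 : (0 : ℝ) < y := hy
    simp only [Pi.zero_apply]
    positivity
  have k2 : ∫ y in Ioo (0 : ℝ) 1, ‖ey N (mob N) y‖ ^ 2 * y ^ (-(2 * σ) - 1) =
      ‖m‖ ^ 2 * (1 / (2 - 2 * σ)) := by
    have e1 : ∫ y in Ioo (0 : ℝ) 1, ‖ey N (mob N) y‖ ^ 2 * y ^ (-(2 * σ) - 1) =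
        ∫ y in Ioo (0 : ℝ) 1, ‖m‖ ^ 2 * y ^ (1 - 2 * σ) := by
      refine setIntegral_congr_fun measurableSet_Ioo fun y hy => ?_
      have hy0 : (0 : ℝ) < y := hy.1
      have e2 := ey_lin N (mob N) 0 (y := y) (by simpa using hy0.le) (by simpa using hy.2)
      rw [Nat.cast_zero, ey_zero, zero_add, Nat.cast_zero, sub_zero, ← hm] at e2
      rw [e2, norm_mul, Complex.norm_real, Real.norm_of_nonneg hy0.le, mul_pow]
      have e3 : y ^ 2 * y ^ (-(2 * σ) - 1) = y ^ (1 - 2 * σ) := by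
        rw [← Real.rpow_natCast, ← Real.rpow_add hy0]
        congr 1
        push_cast
        ring
      rw [mul_assoc, e3]
    rw [e1, integral_const_mul, ← integral_Ioc_eq_integral_Ioo, ← intervalIntegral.integral_of_le zero_le_one,
      integral_rpow (Or.inl (by linarith)), Real.one_rpow, Real.zero_rpow (by linarith)]
    congr 2
    · ring
    · ring
  rw [k2] at k1
  have k3 : ‖m‖ ^ 2 ≤ 2 * C * (N : ℝ) ^ (2 * (θ - σ) + 2 * ε) := by
    have h3 : 0 < 2 - 2 * σ := by linarith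
    rw [mul_one_div, div_le_iff₀ h3] at k1
    refine k1.trans ?_
    have h4 : 0 < C * (N : ℝ) ^ (2 * (θ - σ) + 2 * ε) := by positivity
    nlinarith
  have e4 : (N : ℝ) ^ (2 * (θ - σ) + 2 * ε) = ((N : ℝ) ^ (θ - σ + ε)) ^ 2 := by
    rw [← Real.rpow_natCast, ← Real.rpow_mul hN0.le]
    congr 1
    push_cast
    ring
  have h5 : 0 < (N : ℝ) ^ (θ - σ + ε) := by positivity
  refine abs_le_of_sq_le_sq' ?_ (by positivity) |>.2
  rw [mul_pow, Real.sq_sqrt (by positivity), ← e4]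
  exact k3

theorem t_SUP (hMEL : J_MEL) (hPER : J_PER) (hUP : J_UP) : J_SUP := by
  intro θ hθ hz σ ε h1 h2 hε
  have hσ : 1 / 2 < σ := by linarith
  obtain ⟨e, he0, he1, he2⟩ : ∃ e : ℝ, 0 < e ∧ 13 * e ≤ ε ∧ 2 * e ≤ 1 := by
    refine ⟨min (ε / 13) (1 / 2), by positivity, ?_, ?_⟩
    · have := min_le_left (ε / 13) (1 / 2)
      linarith
    · have := min_le_right (ε / 13) (1 / 2)
      linarith
  obtain ⟨C1, hC1, hP⟩ := hPER θ hθ hz σ e h1 h2 he0
  obtain ⟨C2, hC2, hM⟩ := slo_bd hMEL hUP hθ hz h1 h2 hε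
  set J : ℝ := ∫ t : ℝ, ‖riemannZeta (σ + t * I)‖ * (1 + |t|) ^ (-1 - e) with hJ
  have hJ0 : 0 ≤ J := integral_nonneg fun t => by positivity
  refine ⟨8 * C1 * J + 2 * C2 + 2, by positivity, fun N y hN hy => ?_⟩
  have hN1 : (1 : ℝ) ≤ N := by exact_mod_cast hN
  have hN0 : (0 : ℝ) < N := by linarith
  have hNe : 0 < (N : ℝ) ^ (θ - σ + ε) := by positivity
  have hyσ : 0 < y ^ σ := by positivity
  have hm := hM N hN
  set m : ℂ := slo N (mob N) with hmd
  have hb : ∀ t : ℝ, ‖1 + riemannZeta (σ + t * I) *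
      ∑ n ∈ Finset.Icc 1 N, mob N n * (n : ℂ) ^ (-((σ : ℂ) + t * I))‖ ≤
        (C1 * (N : ℝ) ^ (θ - σ + e)) * (‖riemannZeta (σ + t * I)‖ * (1 + |t|) ^ e) := by
    intro t
    set s : ℂ := (σ : ℂ) + t * I with hs
    have hre : s.re = σ := by simp [hs]
    have hz0 : riemannZeta s ≠ 0 := hz s (by rw [hre]; exact h1)
    set S : ℂ := ∑ n ∈ Finset.Icc 1 N, ((ArithmeticFunction.moebius n : ℤ) : ℂ) * (1 - (n : ℂ) / (N : ℂ)) *
      (n : ℂ) ^ (-s) with hS
    have e1 : ∑ n ∈ Finset.Icc 1 N, mob N n * (n : ℂ) ^ (-s) = -S := by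
      rw [hS, ← Finset.sum_neg_distrib]
      refine Finset.sum_congr rfl fun n _ => ?_
      unfold mob
      ring
    have e2 : 1 + riemannZeta s * ∑ n ∈ Finset.Icc 1 N, mob N n * (n : ℂ) ^ (-s) =
        -(riemannZeta s * (S - (riemannZeta s)⁻¹)) := by
      rw [e1, mul_sub, mul_inv_cancel₀ hz0]
      ring
    have k1 := hP N t hN
    rw [← hs, ← hS] at k1
    rw [e2, norm_neg, norm_mul]
    calc ‖riemannZeta s‖ * ‖S - (riemannZeta s)⁻¹‖ ≤
          ‖riemannZeta s‖ * (C1 * (N : ℝ) ^ (θ - σ + e) * (1 + |t|) ^ e) :=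
          mul_le_mul_of_nonneg_left k1 (norm_nonneg _)
      _ = _ := by ring
  -- value at the integer part
  set k : ℕ := ⌊y⌋₊ with hk
  have hky : (k : ℝ) ≤ y := Nat.floor_le hy.le
  have hky1 : y < k + 1 := Nat.lt_floor_add_one y
  have hlin := ey_lin N (mob N) k hky hky1
  rw [← hmd] at hlin
  have hyk : ‖(y : ℂ) - k‖ ≤ 1 := by
    have : (y : ℂ) - k = ((y - k : ℝ) : ℂ) := by push_cast; ring
    rw [this, Complex.norm_real, Real.norm_of_nonneg (by linarith)]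
    linarith
  have hlin2 : ‖ey N (mob N) y‖ ≤ ‖ey N (mob N) k‖ + ‖m‖ * ‖(y : ℂ) - k‖ := by
    rw [hlin, ← norm_mul]
    exact norm_add_le _ _
  rcases Nat.eq_zero_or_pos k with hk0 | hkp
  · -- `y < 1`
    rw [hk0, Nat.cast_zero, ey_zero, norm_zero, zero_add, Nat.cast_zero, sub_zero, Complex.norm_real,
      Real.norm_of_nonneg hy.le] at hlin2
    have hy1 : y < 1 := by
      rw [hk0] at hky1
      simpa using hky1
    have hyy : y ≤ y ^ σ := by
      calc y = y ^ (1 : ℝ) := (Real.rpow_one y).symm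
        _ ≤ y ^ σ := Real.rpow_le_rpow_of_exponent_ge hy hy1.le h2.le
    calc ‖ey N (mob N) y‖ ≤ ‖m‖ * y := hlin2
      _ ≤ (C2 * (N : ℝ) ^ (θ - σ + ε)) * y ^ σ := mul_le_mul hm hyy hy.le (by positivity)
      _ ≤ (8 * C1 * J + 2 * C2 + 2) * (N : ℝ) ^ (θ - σ + ε) * y ^ σ := by
          refine mul_le_mul_of_nonneg_right (mul_le_mul_of_nonneg_right ?_ hNe.le) hyσ.le
          have : 0 ≤ 8 * C1 * J := by positivity
          linarith
  · have hk1 : (1 : ℝ) ≤ k := by exact_mod_cast hkp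
    have hy1 : 1 ≤ y := hk1.trans hky
    have hyσ1 : 1 ≤ y ^ σ := Real.one_le_rpow hy1 (by linarith)
    rcases le_or_gt y ((N : ℝ) ^ 6) with hy6 | hy6
    · -- the main range
      have v := Vdiff hσ h2 he0 he2 (by positivity) N (mob N) hb hk1
      rw [← hJ, ey_int, ← hmd] at v
      have hek : ‖ey N (mob N) k‖ ≤ 2 * (C1 * (N : ℝ) ^ (θ - σ + e)) * ((k : ℝ) + 1) ^ (σ + 2 * e) * J +
          ‖m‖ / 2 := by
        have h3 := norm_sub_le (ey N (mob N) k + m / 2) (m / 2)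
        rw [add_sub_cancel_right] at h3
        have h4 : ‖m / 2‖ = ‖m‖ / 2 := by
          rw [norm_div]
          simp
        rw [h4] at h3
        linarith
      have hkk : ((k : ℝ) + 1) ^ (σ + 2 * e) ≤ 4 * (y ^ σ * (N : ℝ) ^ (12 * e)) := by
        calc ((k : ℝ) + 1) ^ (σ + 2 * e) ≤ (2 * y) ^ (σ + 2 * e) :=
              Real.rpow_le_rpow (by positivity) (by linarith) (by linarith)
          _ = 2 ^ (σ + 2 * e) * (y ^ σ * y ^ (2 * e)) := by
              rw [Real.mul_rpow (by norm_num) hy.le, Real.rpow_add hy]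
          _ ≤ 4 * (y ^ σ * (N : ℝ) ^ (12 * e)) := by
              refine mul_le_mul ?_ (mul_le_mul_of_nonneg_left ?_ hyσ.le) (by positivity) (by norm_num)
              · calc (2 : ℝ) ^ (σ + 2 * e) ≤ 2 ^ (2 : ℝ) :=
                      Real.rpow_le_rpow_of_exponent_le (by norm_num) (by linarith)
                  _ = 4 := by norm_num
              · calc y ^ (2 * e) ≤ ((N : ℝ) ^ 6) ^ (2 * e) := Real.rpow_le_rpow hy.le hy6 (by linarith)
                  _ = (N : ℝ) ^ (12 * e) := by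
                      rw [← Real.rpow_natCast, ← Real.rpow_mul hN0.le]
                      congr 1
                      push_cast
                      ring
      have hNN : (N : ℝ) ^ (θ - σ + e) * (N : ℝ) ^ (12 * e) ≤ (N : ℝ) ^ (θ - σ + ε) := by
        rw [← Real.rpow_add hN0]
        exact Real.rpow_le_rpow_of_exponent_le hN1 (by linarith)
      have hmain : 2 * (C1 * (N : ℝ) ^ (θ - σ + e)) * ((k : ℝ) + 1) ^ (σ + 2 * e) * J ≤
          8 * C1 * J * ((N : ℝ) ^ (θ - σ + ε) * y ^ σ) := by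
        calc 2 * (C1 * (N : ℝ) ^ (θ - σ + e)) * ((k : ℝ) + 1) ^ (σ + 2 * e) * J ≤
              2 * (C1 * (N : ℝ) ^ (θ - σ + e)) * (4 * (y ^ σ * (N : ℝ) ^ (12 * e))) * J :=
              mul_le_mul_of_nonneg_right (mul_le_mul_of_nonneg_left hkk (by positivity)) hJ0
          _ = 8 * C1 * J * (((N : ℝ) ^ (θ - σ + e) * (N : ℝ) ^ (12 * e)) * y ^ σ) := by ring
          _ ≤ _ := mul_le_mul_of_nonneg_left (mul_le_mul_of_nonneg_right hNN hyσ.le) (by positivity)
      have hmy : ‖m‖ ≤ C2 * ((N : ℝ) ^ (θ - σ + ε) * y ^ σ) := by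
        refine hm.trans ?_
        rw [← mul_assoc]
        exact le_mul_of_one_le_right (by positivity) hyσ1
      have h5 : ‖m‖ * ‖(y : ℂ) - k‖ ≤ ‖m‖ := mul_le_of_le_one_right (norm_nonneg _) hyk
      have h6 : 0 ≤ ‖m‖ := norm_nonneg _
      have h7 : 0 < (N : ℝ) ^ (θ - σ + ε) * y ^ σ := by positivity
      calc ‖ey N (mob N) y‖ ≤ 8 * C1 * J * ((N : ℝ) ^ (θ - σ + ε) * y ^ σ) +
            2 * (C2 * ((N : ℝ) ^ (θ - σ + ε) * y ^ σ)) := by linarith
        _ ≤ (8 * C1 * J + 2 * C2 + 2) * (N : ℝ) ^ (θ - σ + ε) * y ^ σ := by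
            nlinarith
    · -- trivial range
      have h3 := ey_bdd N (mob N) y
      have h4 : ∑ n ∈ Finset.Icc 1 N, ‖mob N n‖ ≤ N := by
        calc ∑ n ∈ Finset.Icc 1 N, ‖mob N n‖ ≤ ∑ _n ∈ Finset.Icc 1 N, (1 : ℝ) := by
              refine Finset.sum_le_sum fun n hn => ?_
              have hn2 := Finset.mem_Icc.1 hn
              unfold mob
              rw [norm_neg, norm_mul]
              have h5 : ‖((ArithmeticFunction.moebius n : ℤ) : ℂ)‖ ≤ 1 := by
                rw [Complex.norm_intCast]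
                exact_mod_cast ArithmeticFunction.abs_moebius_le_one
              have h6 : ‖(1 : ℂ) - (n : ℂ) / (N : ℂ)‖ ≤ 1 := by
                have h7 : (1 : ℂ) - (n : ℂ) / (N : ℂ) = ((1 - (n : ℝ) / N : ℝ) : ℂ) := by push_cast; ring
                have h8 : (n : ℝ) / N ≤ 1 := by
                  rw [div_le_one hN0]
                  exact_mod_cast hn2.2
                have h9 : 0 ≤ (n : ℝ) / N := by positivity
                rw [h7, Complex.norm_real, Real.norm_of_nonneg (by linarith)]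
                linarith
              calc _ ≤ (1 : ℝ) * 1 := mul_le_mul h5 h6 (norm_nonneg _) zero_le_one
                _ = 1 := one_mul 1
          _ = N := by simp
      have h5 : (N : ℝ) ^ 3 ≤ y ^ σ := by
        calc (N : ℝ) ^ 3 = ((N : ℝ) ^ 6) ^ (1 / 2 : ℝ) := by
              rw [← Real.rpow_natCast, ← Real.rpow_natCast, ← Real.rpow_mul hN0.le]
              norm_num
          _ ≤ y ^ (1 / 2 : ℝ) := Real.rpow_le_rpow (by positivity) hy6.le (by norm_num)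
          _ ≤ y ^ σ := Real.rpow_le_rpow_of_exponent_le hy1 hσ.le
      have h6 : (N : ℝ) ^ (-1 : ℝ) ≤ (N : ℝ) ^ (θ - σ + ε) :=
        Real.rpow_le_rpow_of_exponent_le hN1 (by linarith)
      have h7 : (N : ℝ) ^ 2 ≤ (N : ℝ) ^ (θ - σ + ε) * y ^ σ := by
        calc (N : ℝ) ^ 2 = (N : ℝ) ^ (-1 : ℝ) * (N : ℝ) ^ 3 := by
              rw [Real.rpow_neg_one]
              field_simp
          _ ≤ _ := mul_le_mul h6 h5 (by positivity) hNe.le
      have h8 : (N : ℝ) ≤ (N : ℝ) ^ 2 := by nlinarith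
      have h9 : 0 < (N : ℝ) ^ (θ - σ + ε) * y ^ σ := by positivity
      have h10 : 0 ≤ 8 * C1 * J := by positivity
      calc ‖ey N (mob N) y‖ ≤ 2 * ((N : ℝ) ^ (θ - σ + ε) * y ^ σ) := by linarith
        _ ≤ (8 * C1 * J + 2 * C2 + 2) * (N : ℝ) ^ (θ - σ + ε) * y ^ σ := by
            nlinarith

end Pool.Agent.Q211.NB
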